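import Pool.Agent.MP_df844f_gt.RA.c.Gain
import Pool.Agent.MP_df844f_gt.RA.c.Main
import Pool.Agent.MP_df844f_gt.RA.s5.ZLow
import Pool.Agent.MP_df844f_gt.RA.c.Fin
import Pool.Agent.MP_df844f_gt.RA.w.Cut
import Pool.Agent.MP_df844f_gt.RA.s3.Cap
import Pool.Agent.MP_df844f_gt.RA.c.Mov

-- ======== part 0: formerly Pool.Agent.MP_df844f_gt.RA.w.All
section MrgPart0

/-! All statements of `SpecW`, free of hypotheses. -/

set_option linter.unusedSectionVars false

noncomputable section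

namespace Pool.Agent.MP_df844f_gt.RA.WAll

variable [Dat]

theorem factA : FactS := fact
theorem t4A : T4S := t4 fact
theorem k44A : K44S := k44 fact t4A
theorem ballA : BallS := ball
theorem hullA : HullS := hullS fact k44A ball
theorem closeDA : CloseDS := closeD t4A
theorem sp1A : SP1S := sp1
theorem dehnA : DehnS := dehn k44A
theorem h1A : H1S := h1
theorem h2A : H2S := h2
theorem fillA : FillS := fill fact
theorem gcvxA : GCvxS := gcvx h1 sp1
theorem gjoinA : GJoinS := gjoin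
theorem tauA : TauS := tauS t4A k44A
theorem cutExA : CutExS := cutEx
theorem cutSPA : CutSPS := cutSP k44A closeDA
theorem cutTauA : CutTauS := cutTau k44A
theorem qA : QS := qS hullA gcvxA gjoin tauA cutEx cutSPA cutTauA

end Pool.Agent.MP_df844f_gt.RA.WAll

end
end MrgPart0

-- ======== part 1: formerly Pool.Agent.MP_df844f_gt.RA.s2.Att
section MrgPart1

/-! Attaching a new chamber along all sides outside a clique. -/

set_option linter.unusedSectionVars false

noncomputable section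

namespace Pool.Agent.MP_df844f_gt.RA

variable [Dat]

open PS

namespace AttA

variable {B : Type} [MulAction W B] {Y : PS B} {J : Finset S} {y : S → Y.Om} {b : B}

/-- Edges of the new prestate. -/
def ed (Y : PS B) (J : Finset S) (y : S → Y.Om) (s : S) : Option Y.Om → Option Y.Om → Prop
  | some x, some x' => Y.e s x x'
  | none, some x => s ∉ J ∧ x = y s
  | some x, none => s ∉ J ∧ x = y s
  | none, none => False

/-- The new prestate. -/
def att (h : Y.Att J y b) : PS B where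
  Om := Option Y.Om
  A := Y.A
  f x := x.elim b Y.f
  e := ed Y J y
  e_symm := by
    rintro s (_ | x) (_ | x') k
    · exact k
    · exact k
    · exact k
    · exact Y.e_symm k
  e_f := by
    rintro s (_ | x) (_ | x') k
    · exact k.elim
    · obtain ⟨k1, rfl⟩ := k
      exact h.f_y s k1
    · obtain ⟨k1, rfl⟩ := k
      change b = g s • Y.f (y s)
      rw [h.f_y s k1, smul_smul, g_mul_self, one_smul]
    · exact Y.e_f k
  rev := Y.rev
  rev_rev := Y.rev_rev
  rev_ne := Y.rev_ne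
  src a := some (Y.src a)
  lab := Y.lab
  lab_rev := Y.lab_rev
  f_rev := Y.f_rev

def inc (h : Y.Att J y b) : Hom Y (att h) where
  π := some
  e_π k := k
  α := Equiv.refl _
  f_π _ := rfl
  src_α _ := rfl
  rev_α _ := rfl
  lab_α _ := rfl

theorem new_inc (h : Y.Att J y b) : (inc h).new = 1 := by
  have e : {z : Option Y.Om | z ∉ Set.range (some : Y.Om → Option Y.Om)} = {none} := by
    ext z
    cases z <;> simp
  exact (congrArg Set.ncard e).trans (Set.ncard_singleton _)

theorem good_inc (h : Y.Att J y b) {t0 : S} (ht0 : t0 ∉ J) : (inc h).Good where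
  refl := by
    intro E _ c hc ⟨p, hp⟩
    let val : S → E → F2 := fun t ε =>
      p (y t) (g t • ε) + c (.edge t none (some (y t))) ε
    have step : ∀ a a' : S, a ∉ J → a' ∉ J → adj a a' → ∀ q, Y.e a' (y a) q → Y.e a (y a') q →
        ∀ ε, val a ε = val a' ε := by
      intro a a' ha ha' hadj q e1 e2 ε
      have h1 := hc.sq a a' none (some (y a)) (some q) (some (y a')) ε hadj ⟨ha, rfl⟩ e1
        (Y.e_symm e2) ⟨ha', rfl⟩
      have h2 : c (.edge a' (some (y a)) (some q)) (g a • ε) = _ := hp.ed a' _ _ (g a • ε) e1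
      have h3 : c (.edge a (some q) (some (y a'))) (g a' • g a • ε) = _ :=
        hp.ed a _ _ (g a' • g a • ε) (Y.e_symm e2)
      have h4 : g a • g a' • g a • ε = g a' • ε := by
        rw [smul_smul, smul_smul, g_comm hadj, mul_assoc, g_mul_self, mul_one]
      have h5 := hc.symm a' none (some (y a')) ε ⟨ha', rfl⟩
      rw [h2, h3, h4, h5] at h1
      have e : ∀ u v w x z : F2, u + (v + w) + (w + x) + z = 0 → v + u = x + z := by decide
      exact e _ _ _ _ _ h1
    have all : ∀ t ∉ J, ∀ ε, val t0 ε = val t ε := by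
      intro t ht ε
      have hl := h.link t0 ht0 t ht
      clear ht
      induction hl with
      | refl => rfl
      | tail _ k ih =>
        obtain ⟨k1, k2, k3, q, k4, k5⟩ := k
        exact ih.trans (step _ _ k1 k2 k3 q k4 k5 ε)
    refine ⟨fun x => x.elim (val t0) p, ?_, fun a ε => hp.da a ε⟩
    rintro s (_ | x) (_ | x') ε k
    · exact k.elim
    · obtain ⟨k1, rfl⟩ := k
      change _ = val t0 ε + p (y s) (g s • ε)
      rw [all s k1]
      have e : ∀ u v : F2, u = v + u + v := by decide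
      exact e _ _
    · obtain ⟨k1, rfl⟩ := k
      change _ = p (y s) ε + val t0 (g s • ε)
      rw [all s k1, ← hc.symm s (some (y s)) none ε ⟨k1, rfl⟩]
      change _ = p (y s) ε + (p (y s) (g s • g s • ε) + _)
      rw [smul_smul, g_mul_self, one_smul, ← add_assoc, F2_add_self, zero_add]
    · exact hp.ed s x x' ε k
  h0 := by
    intro o x ⟨h1, h2⟩
    refine ⟨h1, fun T ψ hψ => ?_⟩
    have key := h2 T (fun z => ψ (some z)) ⟨fun s u v w k => hψ.ed s (some u) (some v) w k,
      fun a w => hψ.da a w⟩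
    rintro (_ | z) w hw
    · have h3 := hψ.ed t0 none (some (y t0)) w ⟨ht0, rfl⟩
      rw [← h3]
      refine key (y t0) (g t0 * w) ?_
      rw [mul_smul, hw, h.f_y t0 ht0]
      rfl
    · exact key z w hw

theorem area_att (h : Y.Att J y b) : (att h).area + nS ≤ Y.area + 2 * J.card := by
  let F : Set (Y.Om × S) := {p | Y.Free p.1 p.2}
  let G : Set (Y.Om × S) := (fun t => (y t, t)) '' (Jᶜ : Finset S)
  have hG : G ⊆ F := by
    rintro _ ⟨t, ht, rfl⟩
    exact h.free t (Finset.mem_compl.1 ht)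
  have h1 : G.ncard + J.card = nS := by
    rw [Set.ncard_image_of_injective _ fun a a' k => (Prod.ext_iff.1 k).2, Set.ncard_coe_finset,
      add_comm, Finset.card_add_card_compl]
    rfl
  have h2 : (F \ G).ncard + G.ncard = Y.area := Set.ncard_sdiff_add_ncard_of_subset hG
  have h3 : {p : Option Y.Om × S | (att h).Free p.1 p.2} ⊆
      (fun p : Y.Om × S => (some p.1, p.2)) '' (F \ G) ∪ (fun s => (none, s)) '' (J : Set S) := by
    rintro ⟨_ | x, s⟩ hp
    · refine Or.inr ⟨s, ?_, rfl⟩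
      by_contra k
      exact hp ⟨some (y s), k, rfl⟩
    · refine Or.inl ⟨(x, s), ⟨fun ⟨z, hz⟩ => hp ⟨some z, hz⟩, ?_⟩, rfl⟩
      rintro ⟨t, ht, k⟩
      obtain ⟨rfl, rfl⟩ := Prod.ext_iff.1 k
      exact hp ⟨none, Finset.mem_compl.1 ht, rfl⟩
  have h4 := (Set.ncard_le_ncard h3).trans (Set.ncard_union_le _ _)
  have h5 := Set.ncard_image_le (s := F \ G) (f := fun p : Y.Om × S => (some p.1, p.2))
  have h6 := Set.ncard_image_le (s := (J : Set S)) (f := fun s => ((none : Option Y.Om), s))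
  rw [Set.ncard_coe_finset] at h6
  have h7 : (att h).area = {p : Option Y.Om × S | (att h).Free p.1 p.2}.ncard := rfl
  omega

theorem vol_att (h : Y.Att J y b) : (att h).vol = Y.vol + 1 := Finite.card_option

theorem near_att (h : Y.Att J y b) {n : ℕ} {a z : (att h).Om} (k : (att h).Near n a z) :
    ∀ v, z = some v → (a = none → ∃ t ∉ J, Y.Near n (y t) v) ∧ ∀ u, a = some u →
      Y.Near n u v ∨ ∃ i j, i + j ≤ n ∧ (∃ t ∉ J, Y.Near i u (y t)) ∧ ∃ t ∉ J, Y.Near j (y t) v := by
  induction k with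
  | refl n x =>
    rintro v rfl
    refine ⟨fun k => (Option.some_ne_none _ k).elim, fun u k => ?_⟩
    obtain rfl := Option.some.inj k
    exact Or.inl (Near.refl _ _)
  | @step n s x x1 z e _ ih =>
    intro v hv
    obtain ⟨i1, i2⟩ := ih v hv
    refine ⟨?_, ?_⟩
    · rintro rfl
      rcases x1 with _ | x1
      · exact e.elim
      · obtain ⟨e1, rfl⟩ := e
        rcases i2 _ rfl with k | ⟨i, j, hij, -, t, ht, k⟩
        · exact ⟨s, e1, k.mono (Nat.le_succ n)⟩
        · exact ⟨t, ht, k.mono (by omega)⟩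
    · rintro u rfl
      rcases x1 with _ | x1
      · obtain ⟨e1, rfl⟩ := e
        exact Or.inr ⟨0, n, by omega, ⟨s, e1, Near.refl _ _⟩, i1 rfl⟩
      · rcases i2 _ rfl with k | ⟨i, j, hij, ⟨t, ht, k⟩, k'⟩
        · exact Or.inl (Near.step e k)
        · exact Or.inr ⟨i + 1, j, by omega, ⟨t, ht, Near.step e k⟩, k'⟩

end AttA

open AttA in
theorem att (hF : FactS) : AttS := by
  intro B _ Y J y b h
  have hJ := hF.clq J h.clq
  have big := hF.big
  obtain ⟨t0, ht0⟩ : ∃ t, t ∉ J := by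
    by_contra k
    have : J = Finset.univ := Finset.eq_univ_of_forall fun t => not_not.1 fun e => k ⟨t, e⟩
    rw [this, card_univ_S] at hJ
    omega
  have h1 := area_att h
  have h2 := vol_att h
  have h3 : (AttA.att h).pot + 1 ≤ Y.pot := by
    unfold pot
    omega
  refine ⟨AttA.att h, inc h, good_inc h ht0, ⟨?_, by omega, fun n u v k => ?_⟩, new_inc h⟩
  · rw [new_inc]; omega
  · rcases (near_att h k v rfl).2 u rfl with k | ⟨i, j, hij, ⟨t, ht, k⟩, t', ht', k'⟩
    · exact k.mono (Nat.le_add_right _ _)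
    · have := Nat.mul_le_mul_left (2 * nS)
        (show 1 ≤ Y.pot + (nS + 1) * 0 - (AttA.att h).pot by omega)
      exact ((k.trans (h.near t ht t' ht')).trans k').mono (by omega)

end Pool.Agent.MP_df844f_gt.RA

end
end MrgPart1

-- ======== part 2: formerly Pool.Agent.MP_df844f_gt.RA.s2.Clos
section MrgPart2

/-! Every prestate folds and closes up to a state. -/

set_option linter.unusedSectionVars false

noncomputable section

namespace Pool.Agent.MP_df844f_gt.RA

variable [Dat]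

open PS

namespace ClosA

variable {B : Type} [MulAction W B] {Y Y' : PS B}

theorem gg {E : Type} [MulAction W E] (s : S) (ε : E) : g s • g s • ε = ε := by
  rw [smul_smul, g_mul_self, one_smul]

theorem g4 {E : Type} [MulAction W E] {s t : S} (h : adj s t) (ε : E) :
    g t • g s • g t • g s • ε = ε := by
  rw [smul_smul (g s) (g t), g_comm h, ← smul_smul, gg, gg]

theorem g3 {E : Type} [MulAction W E] {s t : S} (h : adj s t) (ε : E) :
    g s • g t • g s • g t • ε = ε := g4 (adj_symm h) ε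

theorem good_of (φ : Hom Y Y') (hs : Function.Surjective φ.π)
    (h : ∀ (E : Type) [MulAction W E] (c : Y'.Coch E), Cocyc c → ∀ ψ : Y.Om → E → F2,
      IsD (fun l => c (φ.lbl l) : Y.Coch E) ψ → ∃ ψ' : Y'.Om → E → F2,
        (∀ x ε, ψ' (φ.π x) ε = ψ x ε) ∧
        ∀ s a b ε, Y'.e s a b → c (.edge s a b) ε = ψ' a ε + ψ' b (g s • ε)) : φ.Good where
  refl E _ c hc := by
    rintro ⟨ψ, hψ⟩
    obtain ⟨ψ', h1, h2⟩ := h E c hc ψ hψ
    refine ⟨ψ', h2, fun a ε => ?_⟩
    obtain ⟨a, rfl⟩ := φ.α.surjective a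
    rw [φ.rev_α, φ.src_α, φ.src_α, φ.lab_α, h1, h1]
    exact hψ.da a ε
  h0 o x := by
    rintro ⟨h1, h2⟩
    refine ⟨(φ.f_π x).trans h1, fun T ψ hψ x' w hw => ?_⟩
    obtain ⟨y, rfl⟩ := hs x'
    refine h2 T (fun z => ψ (φ.π z)) ⟨fun s a b w e => hψ.ed s _ _ w (φ.e_π e), fun a w => ?_⟩ y w
      (hw.trans (φ.f_π y))
    have := hψ.da (φ.α a) w
    rwa [φ.rev_α, φ.src_α, φ.src_α, φ.lab_α] at this

theorem new_zero (φ : Hom Y Y') (hs : Function.Surjective φ.π) : φ.new = 0 := by
  unfold Hom.new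
  rw [hs.range_eq]
  simp

theorem area_le (φ : Hom Y Y') (hs : Function.Surjective φ.π) : Y'.area ≤ Y.area := by
  unfold PS.area
  refine (Set.ncard_le_ncard (t := (fun p : Y.Om × S => (φ.π p.1, p.2)) ''
    {p : Y.Om × S | Y.Free p.1 p.2}) ?_).trans (Set.ncard_image_le (Set.toFinite _))
  rintro ⟨a, s⟩ h
  obtain ⟨x, rfl⟩ := hs a
  exact ⟨(x, s), fun ⟨y, e⟩ => h ⟨φ.π y, φ.e_π e⟩, rfl⟩

theorem near_of (φ : Hom Y Y') (P : Y.Om → Prop)
    (h1 : ∀ a b, φ.π a = φ.π b → a = b ∨ P a ∧ P b)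
    (h2 : ∀ s a' b', Y'.e s a' b' → ∃ a b, φ.π a = a' ∧ φ.π b = b' ∧ (Y.e s a b ∨ P a ∧ P b))
    {n : ℕ} {a' b' : Y'.Om} (h : Y'.Near n a' b') : ∀ a b, φ.π a = a' → φ.π b = b' →
      Y.Near n a b ∨ ∃ i j p q, i + j ≤ n ∧ P p ∧ P q ∧ Y.Near i a p ∧ Y.Near j q b := by
  induction h with
  | refl n x =>
    intro a b ha hb
    rcases h1 a b (ha.trans hb.symm) with rfl | ⟨k1, k2⟩
    · exact .inl (Near.refl _ _)
    · exact .inr ⟨0, 0, a, b, by omega, k1, k2, Near.refl _ _, Near.refl _ _⟩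
  | @step n s x y z e _ ih =>
    intro a b ha hb
    obtain ⟨a1, y1, e1, e2, k⟩ := h2 _ _ _ e
    have hi := ih y1 b e2 hb
    rcases h1 a a1 (ha.trans e1.symm) with rfl | ⟨k1, k2⟩
    · rcases k with k | ⟨k1, k2⟩
      · rcases hi with hi | ⟨i, j, p, q, c1, c2, c3, c4, c5⟩
        · exact .inl (Near.step k hi)
        · exact .inr ⟨i + 1, j, p, q, by omega, c2, c3, Near.step k c4, c5⟩
      · rcases hi with hi | ⟨i, j, p, q, c1, c2, c3, c4, c5⟩
        · exact .inr ⟨0, n, a, y1, by omega, k1, k2, Near.refl _ _, hi⟩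
        · exact .inr ⟨0, j, a, q, by omega, k1, c3, Near.refl _ _, c5⟩
    · rcases hi with hi | ⟨i, j, p, q, c1, c2, c3, c4, c5⟩
      · rcases k with k | ⟨_, k4⟩
        · exact .inr ⟨0, n + 1, a, a1, by omega, k1, k2, Near.refl _ _, Near.step k hi⟩
        · exact .inr ⟨0, n, a, y1, by omega, k1, k4, Near.refl _ _, hi⟩
      · exact .inr ⟨0, j, a, q, by omega, k1, c3, Near.refl _ _, c5⟩

theorem ctl_of (φ : Hom Y Y') (hs : Function.Surjective φ.π) (hp : Y'.pot < Y.pot) {u v : Y.Om}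
    (huv : Y.Near 4 u v) (h1 : ∀ a b, φ.π a = φ.π b → a = b ∨ (a = u ∨ a = v) ∧ (b = u ∨ b = v))
    (h2 : ∀ s a' b', Y'.e s a' b' → ∃ a b, φ.π a = a' ∧ φ.π b = b' ∧
      (Y.e s a b ∨ (a = u ∨ a = v) ∧ (b = u ∨ b = v))) : φ.Ctl 0 where
  area := by
    have := area_le φ hs
    rw [new_zero φ hs]
    omega
  pot := by omega
  near n a b h := by
    rcases near_of φ (fun a => a = u ∨ a = v) h1 h2 h a b rfl rfl with
      k | ⟨i, j, p, q, c1, c2, c3, c4, c5⟩
    · exact k.mono (by omega)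
    · have k : Y.Near 4 p q := by
        rcases c2 with rfl | rfl <;> rcases c3 with rfl | rfl
        · exact Near.refl _ _
        · exact huv
        · exact huv.symm
        · exact Near.refl _ _
      have two : 2 ≤ nS := by
        obtain ⟨t, ht⟩ := exists_adj 0
        exact Fintype.one_lt_card_iff.2 ⟨0, t, Dat.G.ne_of_adj ht⟩
      have := Nat.mul_le_mul (show 4 ≤ 2 * nS by omega)
        (show 1 ≤ Y.pot + (nS + 1) * 0 - Y'.pot by omega)
      exact ((c4.trans k).trans c5).mono (by omega)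

open Classical in
/-- The map that sends `v` to `u`. -/
noncomputable def pr {α : Type} {u v : α} (h : u ≠ v) (x : α) : {x // x ≠ v} :=
  if k : x = v then ⟨u, h⟩ else ⟨x, k⟩

theorem pr_v {α : Type} {u v : α} (h : u ≠ v) : pr h v = ⟨u, h⟩ := dif_pos rfl

theorem pr_ne {α : Type} {u v : α} (h : u ≠ v) {x : α} (k : x ≠ v) : pr h x = ⟨x, k⟩ := dif_neg k

theorem pr_val {α β : Type} {u v : α} (h : u ≠ v) (f : α → β) (hf : f u = f v) (x : α) :
    f (pr h x).1 = f x := by
  by_cases k : x = v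
  · rw [k, pr_v]
    exact hf
  · rw [pr_ne h k]

theorem pr_surj {α : Type} {u v : α} (h : u ≠ v) : Function.Surjective (pr h) :=
  fun x => ⟨x.1, pr_ne h x.2⟩

theorem pr_eq {α : Type} {u v : α} (h : u ≠ v) (a b : α) (e : pr h a = pr h b) :
    a = b ∨ (a = u ∨ a = v) ∧ (b = u ∨ b = v) := by
  by_cases k : a = v <;> by_cases k' : b = v
  · exact .inl (k.trans k'.symm)
  · rw [k, pr_v, pr_ne h k'] at e
    exact .inr ⟨.inr k, .inl (congrArg Subtype.val e).symm⟩
  · rw [k', pr_v, pr_ne h k] at e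
    exact .inr ⟨.inl (congrArg Subtype.val e), .inr k'⟩
  · rw [pr_ne h k, pr_ne h k'] at e
    exact .inl (congrArg Subtype.val e)

/-- Identification of two chambers over the same point. -/
noncomputable def ident (Y : PS B) {u v : Y.Om} (h : u ≠ v) (hf : Y.f u = Y.f v) : PS B where
  Om := {x // x ≠ v}
  A := Y.A
  f x := Y.f x.1
  e s a b := ∃ x y, Y.e s x y ∧ pr h x = a ∧ pr h y = b
  e_symm := fun ⟨x, y, e, e1, e2⟩ => ⟨y, x, Y.e_symm e, e2, e1⟩
  e_f := by
    rintro s _ _ ⟨x, y, e, rfl, rfl⟩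
    rw [pr_val h Y.f hf, pr_val h Y.f hf]
    exact Y.e_f e
  rev := Y.rev
  rev_rev := Y.rev_rev
  rev_ne := Y.rev_ne
  src a := pr h (Y.src a)
  lab := Y.lab
  lab_rev := Y.lab_rev
  f_rev a := by
    rw [pr_val h Y.f hf, pr_val h Y.f hf]
    exact Y.f_rev a

noncomputable def identH (Y : PS B) {u v : Y.Om} (h : u ≠ v) (hf : Y.f u = Y.f v) :
    Hom Y (ident Y h hf) where
  π := pr h
  e_π e := ⟨_, _, e, rfl, rfl⟩
  α := Equiv.refl _
  f_π x := pr_val h Y.f hf x
  src_α _ := rfl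
  rev_α _ := rfl
  lab_α _ := rfl

/-- One step of the closure. -/
def Step (Y : PS B) : Prop :=
  ∃ (Y' : PS B) (φ : Hom Y Y'), Y'.pot < Y.pot ∧ φ.Good ∧ φ.Ctl 0 ∧ φ.new = 0

theorem step_ident {u v : Y.Om} (h : u ≠ v) (hf : Y.f u = Y.f v) (hn : Y.Near 4 u v)
    (hc : ∀ (E : Type) [MulAction W E] (c : (ident Y h hf).Coch E), Cocyc c →
      ∀ ψ : Y.Om → E → F2, IsD (fun l => c ((identH Y h hf).lbl l) : Y.Coch E) ψ → ψ u = ψ v) :
    Step Y := by
  have hs : Function.Surjective (identH Y h hf).π := pr_surj h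
  have hp : (ident Y h hf).pot < Y.pot := by
    have h1 := area_le _ hs
    have h2 : (ident Y h hf).vol < Y.vol :=
      Finite.card_subtype_lt (p := fun x => x ≠ v) (x := v) fun k => k rfl
    unfold PS.pot
    omega
  refine ⟨_, identH Y h hf, hp, good_of _ hs fun E _ c k ψ hψ => ?_,
    ctl_of _ hs hp hn (pr_eq h) ?_, new_zero _ hs⟩
  · have e := pr_val h ψ (hc E c k ψ hψ)
    refine ⟨fun a => ψ a.1, fun x ε => congrFun (e x) ε, ?_⟩
    rintro s _ _ ε ⟨x, y, e0, rfl, rfl⟩
    have := hψ.ed s x y ε e0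
    rw [← e x, ← e y] at this
    exact this
  · rintro s _ _ ⟨x, y, e0, rfl, rfl⟩
    exact ⟨x, y, rfl, rfl, .inl e0⟩

/-- A new thick edge. -/
def addE (Y : PS B) (t : S) (u v : Y.Om) (hf : Y.f v = g t • Y.f u) : PS B where
  Om := Y.Om
  A := Y.A
  f := Y.f
  e s a b := Y.e s a b ∨ s = t ∧ (a = u ∧ b = v ∨ a = v ∧ b = u)
  e_symm := by
    rintro s a b (e | ⟨e, k | k⟩)
    · exact .inl (Y.e_symm e)
    · exact .inr ⟨e, .inr ⟨k.2, k.1⟩⟩
    · exact .inr ⟨e, .inl ⟨k.2, k.1⟩⟩
  e_f := by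
    rintro s a b (e | ⟨rfl, ⟨rfl, rfl⟩ | ⟨rfl, rfl⟩⟩)
    · exact Y.e_f e
    · exact hf
    · rw [hf, gg]
  rev := Y.rev
  rev_rev := Y.rev_rev
  rev_ne := Y.rev_ne
  src := Y.src
  lab := Y.lab
  lab_rev := Y.lab_rev
  f_rev := Y.f_rev

def addH (Y : PS B) (t : S) (u v : Y.Om) (hf : Y.f v = g t • Y.f u) :
    Hom Y (addE Y t u v hf) where
  π x := x
  e_π e := .inl e
  α := Equiv.refl _
  f_π _ := rfl
  src_α _ := rfl
  rev_α _ := rfl
  lab_α _ := rfl

theorem sq_val {E : Type} [MulAction W E] {c : Y'.Coch E} (hc : Cocyc c) (φ : Hom Y Y')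
    {ψ : Y.Om → E → F2} (hψ : IsD (fun l => c (φ.lbl l) : Y.Coch E) ψ) {s t : S} (h : adj s t)
    {x0 x1 x2 x3 : Y.Om} (e1 : Y.e s x0 x1) (e2 : Y.e t x1 x2) (e3 : Y.e s x2 x3)
    (e4 : Y'.e t (φ.π x3) (φ.π x0)) (η : E) :
    c (.edge t (φ.π x3) (φ.π x0)) η = ψ x3 η + ψ x0 (g t • η) := by
  have k := hc.sq s t _ _ _ _ (g t • η) h (φ.e_π e1) (φ.e_π e2) (φ.e_π e3) e4
  have k1 : c (.edge s (φ.π x0) (φ.π x1)) (g t • η) = _ := hψ.ed s x0 x1 (g t • η) e1
  have k2 : c (.edge t (φ.π x1) (φ.π x2)) (g s • g t • η) = _ :=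
    hψ.ed t x1 x2 (g s • g t • η) e2
  have k3 : c (.edge s (φ.π x2) (φ.π x3)) (g t • g s • g t • η) = _ :=
    hψ.ed s x2 x3 (g t • g s • g t • η) e3
  rw [k1, k2, k3, g3 h] at k
  generalize c (.edge t (φ.π x3) (φ.π x0)) η = a at k ⊢
  generalize ψ x0 (g t • η) = b at k ⊢
  generalize ψ x1 (g s • g t • η) = b1 at k
  generalize ψ x2 (g t • g s • g t • η) = b2 at k
  generalize ψ x3 η = b3 at k ⊢
  revert a b b1 b2 b3
  decide

theorem step (h : ¬ Y.State) : Step Y := by
  by_cases hf : ∀ s x y y', Y.e s x y → Y.e s x y' → y = y'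
  swap
  · push Not at hf
    obtain ⟨s, x, y, y', e1, e2, hne⟩ := hf
    refine step_ident hne ((Y.e_f e1).trans (Y.e_f e2).symm)
      (((Near.single (Y.e_symm e1)).trans (Near.single e2)).mono (by omega))
      fun E _ c _ ψ hψ => funext fun ε => ?_
    have k1 : c (.edge s (pr hne x) (pr hne y)) (g s • ε) = _ := hψ.ed s x y (g s • ε) e1
    have k2 : c (.edge s (pr hne x) (pr hne y')) (g s • ε) = _ := hψ.ed s x y' (g s • ε) e2
    rw [pr_v, ← pr_ne hne hne, k1, gg] at k2
    exact add_left_cancel k2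
  have hc : ¬ ∀ s t x0 x1 x2 x3, adj s t → Y.e s x0 x1 → Y.e t x1 x2 → Y.e s x2 x3 →
      Y.e t x3 x0 := fun k => h ⟨hf _ _ _ _, k _ _ _ _ _ _⟩
  push Not at hc
  obtain ⟨s, t, x0, x1, x2, x3, a, e1, e2, e3, ne⟩ := hc
  have f0 : Y.f x0 = g t • Y.f x3 := by rw [Y.e_f e3, Y.e_f e2, Y.e_f e1, g4 a]
  have n3 : Y.Near 3 x0 x3 := Near.step e1 (Near.step e2 (Near.single e3))
  by_cases fr : Y.Free x0 t
  · have hs : Function.Surjective (addH Y t x3 x0 f0).π := fun x => ⟨x, rfl⟩
    have e4 : (addE Y t x3 x0 f0).e t x3 x0 := .inr ⟨rfl, .inl ⟨rfl, rfl⟩⟩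
    have hp : (addE Y t x3 x0 f0).pot < Y.pot := by
      have h2 : (addE Y t x3 x0 f0).area < Y.area :=
        Set.ncard_lt_ncard (s := {p : Y.Om × S | (addE Y t x3 x0 f0).Free p.1 p.2})
          (t := {p : Y.Om × S | Y.Free p.1 p.2})
          ⟨fun p k ⟨y, e⟩ => k ⟨y, .inl e⟩,
            fun k => k (a := (x0, t)) fr ⟨x3, (addE Y t x3 x0 f0).e_symm e4⟩⟩
      have h1 : (addE Y t x3 x0 f0).vol = Y.vol := rfl
      unfold PS.pot
      omega
    refine ⟨_, addH Y t x3 x0 f0, hp, good_of _ hs fun E _ c k ψ hψ => ⟨ψ, fun _ _ => rfl, ?_⟩,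
      ctl_of _ hs hp (n3.mono (by omega)) (fun _ _ e => .inl e) ?_, new_zero _ hs⟩
    · have q := sq_val k (addH Y t x3 x0 f0) hψ a e1 e2 e3 e4
      rintro s' u v ε (e | ⟨r1, ⟨r2, r3⟩ | ⟨r2, r3⟩⟩)
      · exact hψ.ed s' u v ε e
      · rw [r1, r2, r3]
        exact q ε
      · rw [r1, r2, r3]
        have q1 := k.symm _ _ _ (g t • ε) e4
        rw [gg] at q1
        refine q1.trans ((q _).trans ?_)
        rw [gg, add_comm]
    · rintro s' u v (e | ⟨_, ⟨r2, r3⟩ | ⟨r2, r3⟩⟩)
      · exact ⟨u, v, rfl, rfl, .inl e⟩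
      · exact ⟨u, v, rfl, rfl, .inr ⟨.inr r2, .inl r3⟩⟩
      · exact ⟨u, v, rfl, rfl, .inr ⟨.inl r2, .inr r3⟩⟩
  · obtain ⟨y0, e0⟩ := not_not.1 fr
    have hne : y0 ≠ x3 := fun k => ne (k ▸ Y.e_symm e0)
    have hf0 : Y.f y0 = Y.f x3 := by rw [Y.e_f e0, f0, gg]
    refine step_ident hne hf0 (Near.step (Y.e_symm e0) n3) fun E _ c k ψ hψ => funext fun ε => ?_
    have ep : pr hne y0 = pr hne x3 := by rw [pr_v, pr_ne hne hne]
    have k1 := sq_val k (identH Y hne hf0) hψ a e1 e2 e3 ⟨y0, x0, Y.e_symm e0, ep, rfl⟩ ε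
    have k2 : c (.edge t (pr hne y0) (pr hne x0)) ε = _ := hψ.ed t y0 x0 ε (Y.e_symm e0)
    rw [ep] at k2
    exact add_right_cancel (k2.symm.trans k1)

end ClosA

theorem clos : ClosS := by
  intro B _ Y
  induction h : Y.pot using Nat.strong_induction_on generalizing Y with
  | _ n ih =>
    by_cases hs : Y.State
    · exact ⟨Y, Hom.id Y, hs, Hom.good_id, Hom.ctl_id, Hom.new_id⟩
    · obtain ⟨Y1, φ, h1, h2, h3, h4⟩ := ClosA.step hs
      obtain ⟨Y2, ψ, k1, k2, k3, k4⟩ := ih _ (h ▸ h1) Y1 rfl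
      refine ⟨Y2, φ.comp ψ, k1, h2.comp k2, h3.comp k3, ?_⟩
      have := φ.new_comp ψ
      omega

end Pool.Agent.MP_df844f_gt.RA

end
end MrgPart2

-- ======== part 3: formerly Pool.Agent.MP_df844f_gt.RA.s2.Init
section MrgPart3

/-! The initial state: one chamber and one arc for each generator. -/

set_option linter.unusedSectionVars false

noncomputable section

namespace Pool.Agent.MP_df844f_gt.RA

variable [Dat]

open PS

namespace InitA

variable {B : Type} [MulAction W B]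

/-- One chamber with an arc for each element of `T`. -/
def Y0 (o : B) (T : Finset W) (hT : ∀ x ∈ T, x • o = o) : PS B where
  Om := Unit
  A := T × Bool
  f _ := o
  e _ _ _ := False
  e_symm h := h
  e_f h := h.elim
  rev a := (a.1, !a.2)
  rev_rev a := by simp
  rev_ne a h := by simpa using congrArg Prod.snd h
  src _ := ()
  lab a := if a.2 then a.1.1 else a.1.1⁻¹
  lab_rev a := by obtain ⟨x, _ | _⟩ := a <;> simp
  f_rev a := by
    obtain ⟨x, _ | _⟩ := a
    · simp only [Bool.false_eq_true, if_false]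
      rw [eq_inv_smul_iff]; exact hT _ x.2
    · exact (hT _ x.2).symm

theorem one_dart {Y : PS B} (a : Y.A) (w w' : W) (h : w' = Y.lab a * w) :
    ∃ l, Y.TW tt ⟨Y.src a, w, w⟩ ⟨Y.src (Y.rev a), w', w'⟩ l [(.dart a, w)] :=
  ⟨_, TW.dart (n := ⟨Y.src a, w, w⟩) (n' := ⟨Y.src (Y.rev a), w', w'⟩) a (Close.refl _) trivial
    rfl rfl h (TW.nil _ (Close.refl _) trivial)⟩

theorem walk {o : B} {T : Finset W} (hT : ∀ x ∈ T, x • o = o) (γ : W)
    (hγ : γ ∈ Subgroup.closure (T : Set W)) :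
    ∃ l ch, (Y0 o T hT).TW tt ⟨(), 1, 1⟩ ⟨(), γ, γ⟩ l ch := by
  induction hγ using Subgroup.closure_induction_left with
  | one => exact ⟨0, [], TW.nil _ (Close.refl _) trivial⟩
  | mul_left x hx y _ ih =>
    obtain ⟨l, ch, h⟩ := ih
    obtain ⟨l', h'⟩ := one_dart (Y := Y0 o T hT) (⟨x, hx⟩, true) y (x * y) rfl
    exact ⟨_, _, h.append h'⟩
  | inv_mul_cancel x hx y _ ih =>
    obtain ⟨l, ch, h⟩ := ih
    obtain ⟨l', h'⟩ := one_dart (Y := Y0 o T hT) (⟨x, hx⟩, false) y (x⁻¹ * y) rfl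
    exact ⟨_, _, h.append h'⟩

/-- The end point of a word read from `w`. -/
def wd : List S → W → W
  | [], w => w
  | s :: ω, w => wd ω (g s * w)

/-- The sum of a cochain on `W` along a word. -/
def sm (η : S → W → F2) : List S → W → F2
  | [], _ => 0
  | s :: ω, w => η s w + sm η ω (g s * w)

/-- Concatenation of chosen paths along a word. -/
def pw {Y : PS B} (om : S → B → Y.Path) (k : S → B → W) : List S → B → Y.Path
  | [], _ => []
  | s :: ω, b => om s b ++ shift (pw om k ω (g s • b)) (k s b)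

theorem exists_wd (u : W) : ∃ ω, ∀ w, wd ω w = u * w := by
  induction u using cs.simple_induction_right with
  | one => exact ⟨[], fun w => (one_mul w).symm⟩
  | mul_simple_right u s ih =>
    obtain ⟨ω, h⟩ := ih
    exact ⟨s :: ω, fun w => (h _).trans (mul_assoc _ _ _).symm⟩

theorem sm_eq {η : S → W → F2} {φ : W → F2} (h : ∀ s x, η s x = φ x + φ (g s * x)) (ω : List S) :
    ∀ w, sm η ω w = φ w + φ (wd ω w) := by
  induction ω with
  | nil => intro w; exact (F2_add_self _).symm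
  | cons s ω ih =>
    intro w
    show η s w + sm η ω (g s * w) = φ w + φ (wd ω (g s * w))
    rw [h, ih, add_assoc, ← add_assoc (φ (g s * w)), F2_add_self, zero_add]

theorem tw_pw {Y : PS B} {x0 : Y.Om} {o : B} {om : S → B → Y.Path} {k : S → B → W} {ret : W → W}
    (hk : ∀ s w, ret (g s * w) = k s (w • o) * ret w)
    (ho : ∀ s b, ∃ l, Y.TW tt ⟨x0, 1, 1⟩ ⟨x0, k s b, k s b⟩ l (om s b)) (ω : List S) :
    ∀ w, ∃ l, Y.TW tt ⟨x0, 1, 1⟩ ⟨x0, ret (wd ω w) * (ret w)⁻¹, ret (wd ω w) * (ret w)⁻¹⟩ l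
      (pw om k ω (w • o)) := by
  induction ω with
  | nil =>
    intro w
    show ∃ l, Y.TW tt ⟨x0, 1, 1⟩ ⟨x0, ret w * (ret w)⁻¹, ret w * (ret w)⁻¹⟩ l []
    rw [mul_inv_cancel]
    exact ⟨0, TW.nil _ (Close.refl _) trivial⟩
  | cons s ω ih =>
    intro w
    obtain ⟨l, h⟩ := ho s (w • o)
    obtain ⟨l', h'⟩ := ih (g s * w)
    have h2 := h'.shift (k s (w • o))
    have e : ret (wd ω (g s * w)) * (ret (g s * w))⁻¹ * k s (w • o) =
        ret (wd ω (g s * w)) * (ret w)⁻¹ := by rw [hk]; group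
    simp only [one_mul, e, mul_smul] at h2
    exact ⟨_, h.append h2⟩

theorem ev_pw {Y : PS B} {o : B} {om : S → B → Y.Path} {k : S → B → W} {ret : W → W}
    (hk : ∀ s w, ret (g s * w) = k s (w • o) * ret w) (c : Y.Coch W) (ε : W) (ω : List S) :
    ∀ w, ev c (pw om k ω (w • o)) (ret w * ε) =
      sm (fun s w => ev c (om s (w • o)) (ret w * ε)) ω w := by
  induction ω with
  | nil => intro w; rfl
  | cons s ω ih =>
    intro w
    show ev c (om s (w • o) ++ shift (pw om k ω (g s • w • o)) (k s (w • o))) (ret w * ε) =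
      ev c (om s (w • o)) (ret w * ε) + sm _ ω (g s * w)
    rw [ev_append, ev_shift, ← ih, hk, mul_smul, smul_eq_mul, mul_assoc]

theorem exists_loops {Y : PS B} {n : Y.Node} {I : Type} [Finite I] (P : I → Y.Path)
    (h : ∀ i, ∃ l, Y.TW tt n n l (P i)) :
    ∃ Λ : List (ℕ × Y.Path), (∀ l ∈ Λ, Y.TW tt n n l.1 l.2) ∧ ∀ i, ∃ l ∈ Λ, l.2 = P i := by
  choose L hL using h
  have := Fintype.ofFinite I
  refine ⟨(Finset.univ : Finset I).toList.map fun i => (L i, P i), ?_, fun i => ⟨(L i, P i), ?_, rfl⟩⟩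
  · intro l hl
    obtain ⟨i, -, rfl⟩ := List.mem_map.1 hl
    exact hL i
  · exact List.mem_map.2 ⟨i, by simp, rfl⟩

theorem rel (h1 : H1S) [Finite B] {o : B} (hB : Trans o) {T : Finset W} (hT : ∀ x ∈ T, x • o = o)
    (hG : ∀ γ : W, γ • o = o → γ ∈ Subgroup.closure (T : Set W)) :
    ∃ Λ : List (ℕ × (Y0 o T hT).Path),
      (∀ l ∈ Λ, (Y0 o T hT).TW tt ⟨(), 1, 1⟩ ⟨(), 1, 1⟩ l.1 l.2) ∧
      ∀ c : (Y0 o T hT).Coch W, Cocyc c → (∀ l ∈ Λ, ∀ ε, ev c l.2 ε = 0) → Cobd c := by
  have ht : ∀ b : B, ∃ w : W, w • o = b ∧ (b = o → w = 1) := by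
    intro b
    by_cases e : b = o
    · exact ⟨1, by rw [one_smul, e], fun _ => rfl⟩
    · obtain ⟨w, hw⟩ := hB b
      exact ⟨w, hw, fun k => (e k).elim⟩
  choose t ht ht1 using ht
  set k : S → B → W := fun s b => (t (g s • b))⁻¹ * g s * t b with hkd
  set ret : W → W := fun w => (t (w • o))⁻¹ * w with hret
  have hk : ∀ s w, ret (g s * w) = k s (w • o) * ret w := by
    intro s w
    simp only [hkd, hret, mul_smul]
    group
  have hr : ∀ γ : W, γ • o = o → ret γ = γ := by
    intro γ hγ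
    simp only [hret]
    rw [ht1 _ hγ, inv_one, one_mul]
  have ho : ∀ s b, ∃ ch, ∃ l, (Y0 o T hT).TW tt ⟨(), 1, 1⟩ ⟨(), k s b, k s b⟩ l ch := by
    intro s b
    obtain ⟨l, ch, h⟩ := walk hT (k s b) (hG _ (by
      simp only [hkd, mul_smul]
      rw [ht, inv_smul_eq_iff, ht]))
    exact ⟨ch, l, h⟩
  choose om ho using ho
  have cl : ∀ (ω : List S) (b : B), (∀ w, wd ω w = w) →
      ∃ l, (Y0 o T hT).TW tt ⟨(), 1, 1⟩ ⟨(), 1, 1⟩ l (pw om k ω b) := by
    intro ω b h
    have := tw_pw hk ho ω (t b)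
    rwa [h, mul_inv_cancel, ht] at this
  obtain ⟨Λ1, a1, b1⟩ := exists_loops (I := S × B) (fun i => pw om k [i.1, i.1] i.2) fun i =>
    cl _ _ fun w => g_mul_g_mul _ _
  obtain ⟨Λ2, a2, b2⟩ := exists_loops (I := {p : S × S // adj p.1 p.2} × B)
    (fun i => pw om k [i.1.1.1, i.1.1.2, i.1.1.1, i.1.1.2] i.2) fun i => cl _ _ fun w => by
      show g i.1.1.2 * (g i.1.1.1 * (g i.1.1.2 * (g i.1.1.1 * w))) = w
      rw [← mul_assoc (g i.1.1.1), g_comm i.1.2, mul_assoc, g_mul_g_mul, g_mul_g_mul]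
  choose wo hwo using exists_wd
  have h3 : ∀ x : T, ∃ ch, (∃ l, (Y0 o T hT).TW tt ⟨(), 1, 1⟩ ⟨(), 1, 1⟩ l ch) ∧
      ∀ (c : (Y0 o T hT).Coch W) (ε : W), Cocyc c →
        ev c ch ε = c (.dart (x, true)) ε + ev c (pw om k (wo x.1) o) ε := by
    intro x
    obtain ⟨l, h⟩ := tw_pw hk ho (wo x.1) 1
    rw [hwo, mul_one, hr 1 (one_smul _ _), hr _ (hT _ x.2), inv_one, mul_one, one_smul] at h
    obtain ⟨ch, hc, hv⟩ := h.reverse
    refine ⟨_, ⟨_, TW.dart (n := ⟨(), 1, 1⟩) (x, true) (Close.refl _) trivial rfl rfl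
      (mul_one _).symm hc⟩, fun c ε hc => ?_⟩
    rw [ev_cons, hv W c ε hc, one_smul]
  choose P3 hP hv using h3
  obtain ⟨Λ3, a3, b3⟩ := exists_loops P3 hP
  refine ⟨Λ1 ++ (Λ2 ++ Λ3), ?_, fun c hc hz => ?_⟩
  · intro l hl
    rcases List.mem_append.1 hl with h | h
    · exact a1 l h
    rcases List.mem_append.1 h with h | h
    · exact a2 l h
    · exact a3 l h
  have key : ∀ ε : W, ∃ φ : W → F2,
      ∀ s x, ev c (om s (x • o)) (ret x * ε) = φ x + φ (g s * x) := by
    intro ε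
    have s1 : ∀ s x, ev c (om s ((g s * x) • o)) (ret (g s * x) * ε) =
        ev c (om s (x • o)) (ret x * ε) := by
      intro s x
      obtain ⟨l, hl, e⟩ := b1 (s, x • o)
      have h := hz l (List.mem_append_left _ hl) (ret x * ε)
      rw [e, ev_pw hk] at h
      simp only [sm, add_zero] at h
      rw [eq_neg_of_add_eq_zero_right h, CharTwo.neg_eq]
    obtain ⟨φ, hφ⟩ := h1 Set.univ (fun _ _ _ _ _ _ => trivial)
      (fun s x => ev c (om s (x • o)) (ret x * ε)) (fun s x _ _ => s1 s x) (by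
        intro s u x hsu _ _ _ _
        obtain ⟨l, hl, e⟩ := b2 (⟨(s, u), hsu⟩, x • o)
        have h := hz l (List.mem_append_right _ (List.mem_append_left _ hl)) (ret x * ε)
        rw [e, ev_pw hk] at h
        simp only [sm, add_zero] at h
        have e1 : g u * (g s * x) = g s * (g u * x) := by
          rw [← mul_assoc, ← g_comm hsu, mul_assoc]
        rw [e1, g_mul_g_mul, s1, s1] at h
        rw [← h]; ring)
    exact ⟨φ, fun s x => hφ s x trivial trivial⟩
  choose φ hφ using key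
  have dt : ∀ (x : T) (ε : W), c (.dart (x, true)) ε =
      φ (t (ε⁻¹ • o))⁻¹ (ε * t (ε⁻¹ • o)) +
        φ (t ((x.1 * ε)⁻¹ • o))⁻¹ (x.1 * ε * t ((x.1 * ε)⁻¹ • o)) := by
    intro x ε
    have e0 : (x.1 * ε)⁻¹ • o = ε⁻¹ • o := by
      rw [mul_inv_rev, mul_smul, inv_smul_eq_iff.2 (hT _ x.2).symm]
    have e1 : (ε * t (ε⁻¹ • o)) • o = o := by rw [mul_smul, ht, smul_inv_smul]
    obtain ⟨l, hl, e⟩ := b3 x
    have h := hz l (List.mem_append_right _ (List.mem_append_right _ hl)) ε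
    rw [e, hv x c ε hc] at h
    have h2 := ev_pw (om := om) hk c (t (ε⁻¹ • o))⁻¹ (wo x.1) (ε * t (ε⁻¹ • o))
    rw [sm_eq (hφ _), hwo, e1, hr _ e1, mul_inv_cancel_right] at h2
    rw [e0, mul_assoc, ← h2, eq_neg_of_add_eq_zero_left h, CharTwo.neg_eq]
  refine ⟨fun _ ε => φ (t (ε⁻¹ • o))⁻¹ (ε * t (ε⁻¹ • o)), fun _ _ _ _ h => h.elim, ?_⟩
  rintro ⟨x, _ | _⟩ ε
  · have h := hc.dsym (x, false) ε
    rw [← h]
    have h2 := dt x (x.1⁻¹ * ε)
    rw [mul_inv_cancel_left, add_comm] at h2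
    exact h2
  · exact dt x ε

end InitA

open InitA in
theorem init (h1 : H1S) : InitS := by
  intro B _ _ o hB T hT
  have hT1 : ∀ x ∈ T, x • o = o := fun x hx =>
    MulAction.mem_stabilizer_iff.1 (hT ▸ Subgroup.subset_closure hx)
  have hG : ∀ γ : W, γ • o = o → γ ∈ Subgroup.closure (T : Set W) := fun γ h =>
    hT ▸ MulAction.mem_stabilizer_iff.2 h
  obtain ⟨Λ, a, b⟩ := rel h1 hB hT1 hG
  refine ⟨Y0 o T hT1, (), meas Λ, ⟨fun h => h.elim, fun _ h => h.elim⟩,
    ⟨Λ, ⟨⟨rfl, fun X φ hφ x w hw => ?_⟩, ?_, a, b⟩, le_rfl⟩, (Nat.card_unique : Nat.card Unit = 1), ?_⟩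
  · obtain ⟨l, ch, h⟩ := walk hT1 w (hG w hw)
    exact h.locC hφ
  · refine ⟨fun i => [(.dart (T.equivFin.symm i, true), 1)], fun i => ⟨(T.equivFin.symm i).1,
      one_dart (Y := Y0 o T hT1) (T.equivFin.symm i, true) 1 _ (mul_one _).symm⟩,
      fun c hc hz => ?_⟩
    have z : ∀ x : T, c (.dart (x, true)) () = 0 := by
      intro x
      have := hz (T.equivFin x)
      rw [ev_cons, ev_nil, add_zero, Equiv.symm_apply_apply] at this
      exact this
    refine ⟨fun _ _ => 0, fun _ _ _ _ h => h.elim, ?_⟩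
    rintro ⟨x, _ | _⟩ ε
    · exact ((hc.dsym (x, false) ε).symm.trans (z x)).trans (add_zero _).symm
    · exact (z x).trans (add_zero _).symm
  · refine (Set.ncard_le_card _).trans ?_
    show Nat.card (Unit × S) ≤ nS
    rw [Nat.card_prod, natCard_S, Nat.card_unique, one_mul]

end Pool.Agent.MP_df844f_gt.RA

end
end MrgPart3

-- ======== part 4: formerly Pool.Agent.MP_df844f_gt.RA.s3.Count
section MrgPart4

/-! Counting free sides and the frontier of a set of chambers with a given boundary. -/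

set_option linter.unusedSectionVars false

noncomputable section

namespace Pool.Agent.MP_df844f_gt.RA

variable [Dat]

open PS

namespace CountA

theorem fibre {α β : Type} [Finite α] (f : α → β) (A : Set α) :
    {p | p ∈ A ∧ ∃ q ∈ A, q ≠ p ∧ f q = f p}.ncard + 2 * (f '' A).ncard ≤ 2 * A.ncard := by
  classical
  lift A to Finset α using Set.toFinite A
  obtain ⟨N, hN⟩ : ∃ N : Finset α, N = A.filter fun p => ∃ q ∈ A, q ≠ p ∧ f q = f p := ⟨_, rfl⟩
  have e1 : {p | p ∈ (A : Set α) ∧ ∃ q ∈ (A : Set α), q ≠ p ∧ f q = f p} = (N : Set α) := by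
    ext p; simp [hN]
  rw [e1, ← Finset.coe_image, Set.ncard_coe_finset, Set.ncard_coe_finset, Set.ncard_coe_finset]
  have h1 : N ⊆ A := by rw [hN]; exact Finset.filter_subset _ _
  have h2 : 2 * (N.image f).card ≤ N.card := by
    refine Finset.mul_card_image_le_card N 2 fun b hb => ?_
    obtain ⟨p, hp, rfl⟩ := Finset.mem_image.1 hb
    have hp' := hp
    rw [hN, Finset.mem_filter] at hp'
    obtain ⟨a, q, b, c, e⟩ := hp'
    have hq : q ∈ N := by
      rw [hN, Finset.mem_filter]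
      exact ⟨b, p, a, c.symm, e.symm⟩
    exact Finset.one_lt_card.2 ⟨q, Finset.mem_filter.2 ⟨hq, e⟩, p, Finset.mem_filter.2 ⟨hp, rfl⟩, c⟩
  have h3 : (A.image f).card ≤ ((A \ N).image f).card + (N.image f).card := by
    refine le_trans (le_of_eq ?_) (Finset.card_union_le _ _)
    rw [← Finset.image_union, Finset.sdiff_union_of_subset h1]
  have h4 := Finset.card_image_le (s := A \ N) (f := f)
  have h5 := Finset.card_sdiff_add_card_eq_card h1
  omega

theorem sum_ne {ι C : Type} (T : Finset ι) (f : ι → C) (c : C)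
    (h : (∑ i ∈ T, Finsupp.single (f i) (1 : F2)) c ≠ 0) : ∃ i ∈ T, f i = c := by
  rw [Finsupp.finsetSum_apply] at h
  obtain ⟨i, hi, k⟩ := Finset.exists_ne_zero_of_sum_ne_zero h
  exact ⟨i, hi, (Finsupp.single_apply_ne_zero.1 k).1.symm⟩

theorem sum_one {ι C : Type} (T : Finset ι) (f : ι → C) {j : ι} (hj : j ∈ T)
    (h : ∀ i ∈ T, f i = f j → i = j) : (∑ i ∈ T, Finsupp.single (f i) (1 : F2)) (f j) = 1 := by
  rw [Finsupp.finsetSum_apply, Finset.sum_eq_single_of_mem j hj, Finsupp.single_eq_same]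
  exact fun i hi k => Finsupp.single_eq_of_ne fun e => k (h i hi e.symm)

variable {B : Type} [MulAction W B] {Y Y' : PS B}

theorem bd_eq (Z : Finset Y.Om) : Y.bd (Y.ch0 Z) =
    ∑ p ∈ Z ×ˢ (Finset.univ : Finset S), Finsupp.single (Y.cell p.1 {p.2}) 1 := by
  rw [bd_ch0, Finset.sum_product]

theorem push_eq (φ : Hom Y Y') (D : Finset (Y.Om × S)) : φ.push (Y.ch1 D) =
    ∑ p ∈ D, Finsupp.single (Y'.cell (φ.π p.1) {p.2}) 1 := by
  unfold ch1 EHom.push
  rw [map_sum]
  refine Finset.sum_congr rfl fun p _ => ?_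
  rw [Finsupp.lmapDomain_apply, Finsupp.mapDomain_single]
  rfl

theorem face (hY : Y.State) {x y : Y.Om} {s t : S} (h : Y.cell y {t} = Y.cell x {s}) :
    t = s ∧ (y = x ∨ Y.e s x y) := by
  obtain rfl : t = s := Finset.singleton_injective (cell_eq_iff.1 h).1
  exact ⟨rfl, hY.cell_one.1 h.symm⟩

theorem face_free (hY : Y.State) {x y : Y.Om} {s t : S} (hx : Y.Free x s)
    (h : Y.cell y {t} = Y.cell x {s}) : (y, t) = (x, s) := by
  obtain ⟨rfl, rfl | k⟩ := face hY h
  · rfl
  · exact absurd ⟨_, k⟩ hx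

/-- The map on sides. -/
def sd (φ : Hom Y Y') (p : Y.Om × S) : Y'.Om × S := (φ.π p.1, p.2)

/-- Sides with free image. -/
def Af (φ : Hom Y Y') : Set (Y.Om × S) := {p | Y'.Free (φ.π p.1) p.2}

theorem area_le (φ : Hom Y Y') : Y'.area ≤ (sd φ '' Af φ).ncard + nS * φ.new := by
  have h : {p : Y'.Om × S | Y'.Free p.1 p.2} ⊆
      sd φ '' Af φ ∪ {y | y ∉ Set.range φ.π} ×ˢ Set.univ := by
    rintro ⟨y, s⟩ hp
    by_cases k : y ∈ Set.range φ.π
    · obtain ⟨x, rfl⟩ := k
      exact Or.inl ⟨(x, s), hp, rfl⟩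
    · exact Or.inr ⟨k, trivial⟩
  refine (Set.ncard_le_ncard h).trans ((Set.ncard_union_le _ _).trans (le_of_eq ?_))
  rw [Set.ncard_prod, Set.ncard_univ, mul_comm]
  rw [natCard_S]
  rfl

theorem lost (φ : Hom Y Y') :
    ({p : Y.Om × S | Y.Free p.1 p.2} \ Af φ).ncard + (Af φ).ncard = Y.area :=
  Set.ncard_sdiff_add_ncard_of_subset fun _ hp ⟨_, k⟩ => hp ⟨_, φ.e_π k⟩

end CountA

open CountA

theorem count : CountS := by
  intro B _ Y Y' φ D E Z _ hY' hD hbd ha
  rw [bd_eq, push_eq] at hbd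
  have a1 := area_le φ
  have a2 := lost φ
  have a3 := fibre (sd φ) (Af φ)
  have a4 : (sd φ '' Af φ).ncard ≤ (Af φ).ncard := Set.ncard_image_le
  have a5 : (Af φ).ncard ≤ Y.area := by omega
  constructor
  · obtain ⟨G, hG⟩ : ∃ G : Set (Y.Om × S), ∀ p, p ∈ G ↔
        p ∈ D ∧ p ∈ Af φ ∧ ∀ q, sd φ q = sd φ p → q = p :=
      ⟨{p | p ∈ D ∧ p ∈ Af φ ∧ ∀ q, sd φ q = sd φ p → q = p}, fun _ => Iff.rfl⟩
    have inj : ∀ p ∈ G, ∀ q : Y.Om × S,
        Y'.cell (φ.π q.1) {q.2} = Y'.cell (φ.π p.1) {p.2} → q = p := fun p hp q e =>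
      ((hG p).1 hp).2.2 q (face_free hY' ((hG p).1 hp).2.1 e)
    have b1 : (D : Set (Y.Om × S)) ⊆ (({p : Y.Om × S | Y.Free p.1 p.2} \ Af φ) ∪
        {p | p ∈ Af φ ∧ ∃ q ∈ Af φ, q ≠ p ∧ sd φ q = sd φ p}) ∪
        ({p | p ∈ G ∧ E (Y'.cell (φ.π p.1) {p.2}) = 0} ∪
          {p | p ∈ G ∧ E (Y'.cell (φ.π p.1) {p.2}) ≠ 0}) := by
      intro p hp
      by_cases c1 : p ∈ Af φ
      · by_cases c2 : ∀ q, sd φ q = sd φ p → q = p
        · have := (hG p).2 ⟨hp, c1, c2⟩
          exact Or.inr ((em _).imp (fun k => ⟨this, k⟩) fun k => ⟨this, k⟩)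
        · push Not at c2
          obtain ⟨q, e, k⟩ := c2
          refine Or.inl (Or.inr ⟨c1, q, ?_, k, e⟩)
          show Y'.Free (sd φ q).1 (sd φ q).2
          rw [e]
          exact c1
      · exact Or.inl (Or.inl ⟨hD p hp, c1⟩)
    have b2 : {p | p ∈ G ∧ E (Y'.cell (φ.π p.1) {p.2}) = 0}.ncard ≤ Y'.nF Z := by
      refine Set.ncard_le_ncard_of_injOn (sd φ) (fun p hp => ?_)
        fun p _ q hq e => ((hG q).1 hq.1).2.2 p e
      have h1 := (hG p).1 hp.1
      have h2 := DFunLike.congr_fun hbd (Y'.cell (φ.π p.1) {p.2})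
      rw [Finsupp.add_apply, hp.2, add_zero, sum_one D (fun p => Y'.cell (φ.π p.1) {p.2}) h1.1
        fun q _ e => inj p hp.1 q e] at h2
      obtain ⟨q, hq, e⟩ := sum_ne _ (fun p : Y'.Om × S => Y'.cell p.1 {p.2}) _
        (h2.trans_ne one_ne_zero)
      have h3 := congrArg Prod.fst (face_free hY' h1.2.1 e)
      exact ⟨show φ.π p.1 ∈ Z from (show q.1 = φ.π p.1 from h3) ▸ (Finset.mem_product.1 hq).1,
        h1.2.1⟩
    have b3 : {p | p ∈ G ∧ E (Y'.cell (φ.π p.1) {p.2}) ≠ 0}.ncard ≤ E.support.card := by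
      rw [← Set.ncard_coe_finset]
      exact Set.ncard_le_ncard_of_injOn (fun p => Y'.cell (φ.π p.1) {p.2})
        (fun p hp => Finsupp.mem_support_iff.2 hp.2) fun p _ q hq e => inj q hq.1 p e
    have b4 := (Set.ncard_le_ncard b1).trans ((Set.ncard_union_le _ _).trans
      (Nat.add_le_add (Set.ncard_union_le _ _) (Set.ncard_union_le _ _)))
    rw [Set.ncard_coe_finset] at b4
    omega
  · have inj : ∀ p : Y'.Om × S, (∃ y, y ∉ (Z : Set Y'.Om) ∧ Y'.e p.2 p.1 y) → ∀ q : Y'.Om × S,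
        q.1 ∈ Z → Y'.cell q.1 {q.2} = Y'.cell p.1 {p.2} → q = p := by
      rintro p ⟨y, h1, h2⟩ q hq e
      obtain ⟨e1, e2 | e2⟩ := face hY' e
      · exact Prod.ext e2 e1
      · exact absurd (hY'.fold e2 h2 ▸ hq) h1
    have b1 : Y'.front Z ≤ ((fun p : Y.Om × S => Y'.cell (φ.π p.1) {p.2}) ''
        ({p : Y.Om × S | Y.Free p.1 p.2} \ Af φ) ∪ (E.support : Set Y'.Cell)).ncard := by
      refine Set.ncard_le_ncard_of_injOn (fun p : Y'.Om × S => Y'.cell p.1 {p.2}) (fun p hp => ?_)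
        fun p hp q hq e => inj q hq.2 p hp.1 e
      by_cases c : E (Y'.cell p.1 {p.2}) = 0
      · have h2 := DFunLike.congr_fun hbd (Y'.cell p.1 {p.2})
        rw [Finsupp.add_apply, c, add_zero, sum_one _ (fun p : Y'.Om × S => Y'.cell p.1 {p.2})
          (Finset.mem_product.2 ⟨hp.1, Finset.mem_univ _⟩)
          fun q hq e => inj p hp.2 q (Finset.mem_product.1 hq).1 e] at h2
        obtain ⟨q, hq, e⟩ := sum_ne _ (fun p : Y.Om × S => Y'.cell (φ.π p.1) {p.2}) _
          (h2.symm.trans_ne one_ne_zero)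
        refine Or.inl ⟨q, ⟨hD q hq, fun k => ?_⟩, e⟩
        obtain ⟨y, -, h3⟩ := hp.2
        have h4 : p = sd φ q := face_free hY' k e.symm
        rw [h4] at h3
        exact k ⟨y, h3⟩
      · exact Or.inr (Finsupp.mem_support_iff.2 c)
    have b2 := b1.trans ((Set.ncard_union_le _ _).trans (Nat.add_le_add_right Set.ncard_image_le _))
    rw [Set.ncard_coe_finset] at b2
    omega

end Pool.Agent.MP_df844f_gt.RA

end
end MrgPart4

-- ======== part 5: formerly Pool.Agent.MP_df844f_gt.RA.s5.Area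
section MrgPart5

/-! The area bound for tight states and the final contradiction. -/

set_option linter.unusedSectionVars false

noncomputable section

namespace Pool.Agent.MP_df844f_gt.RA

variable [Dat]

open PS

theorem areaS (ti : TIneqS) (cp : ChiPS) (eu : EulerS) (su : SurjS) (fr : FreeExS) (zl : ZLowS)
    (ar : ArcS) (ad : AddS) (st : StructS) : AreaS := by
  intro H
  obtain ⟨C1, ti⟩ := ti
  obtain ⟨C2, C, ρ1, ti⟩ := ti H
  obtain ⟨ρ2, st⟩ := st (6 * C1 + 12 * C2)
  refine ⟨8 * C1 + 14 * C2, C + 1, ρ1 + ρ2 + 3, ?_⟩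
  intro B _ _ o hT hρ hE Y x0 r μ hS hI hv hY
  have hL : Loc B := loc_of hT (hρ.mono (by omega))
  have hv' : Y.vol < Nat.card B := by omega
  obtain ⟨U, kb, hU, s1, s2, -, s4, s5⟩ :=
    st B o hT (hρ.mono (by omega)) Y x0 r μ hS hI hv' (hY.mono (by omega))
  obtain ⟨a1, a2, -, a4, a5, -, a7, -⟩ := ad B Y x0 U hU
  have t := ti B o hT (hρ.mono (by omega)) hE Y x0 r μ hS hI (by omega) (hY.mono (by omega))
    Set.univ fun _ _ _ _ _ => trivial
  have c := cp B hL Y hS
  obtain ⟨e1, e2, e3⟩ := eu B Y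
  have s := su B Y hS (fr B o hT Y hv')
  have z := zl B o hL Y x0 r μ hS hI
  have k := ar B o Y x0 r μ hI
  rw [a1] at t
  have h1 := Nat.mul_le_mul_left C1
    (show Y.nD Set.univ ≤ 2 * (Y.nV Set.univ + Y.area) + 4 * r by omega)
  have h2 := Nat.mul_le_mul_left C1 (show Y.nB Set.univ ≤ 2 * r + 3 * Y.nB Uᶜ + 3 by omega)
  have h3 := Nat.mul_le_mul_left C2
    (show Y.ends x0 Set.univ ≤ 6 * r + 6 * Y.nB Uᶜ + 7 by omega)
  have h4 : Y.nF Uᶜ ≤ Y.area := by omega
  have h5 := Nat.zero_le (C2 * r)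
  have h6 := Nat.zero_le C1
  linarith

theorem noEnd (ti : TIneqS) (cl : ChiLeS) (cp : ChiPS) (eu : EulerS) (su : SurjS) (fr : FreeExS)
    (ea : EndAS) (eb : EndBS) (em : EndMS) (ad : AddS) (st : StructS) : NoEndS := by
  intro H
  obtain ⟨C1, ti⟩ := ti
  obtain ⟨C2, C, ρ1, ti⟩ := ti H
  obtain ⟨ρ2, st⟩ := st (C1 + 2 * C2 + 1)
  refine ⟨C + 1, ρ1 + ρ2 + 3, ?_⟩
  intro B _ _ o hT hρ hE Y x0 r hS hI hv hY
  have hL : Loc B := loc_of hT (hρ.mono (by omega))
  have hv' : Y.vol < Nat.card B := by omega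
  have hI' : Y.Inv o x0 r 0 := ⟨[], hI, le_rfl⟩
  have hc : ∀ c : Y.Coch W, Cocyc c → Cobd c := fun c h => hI.rel c h (by simp)
  have : Nonempty B := ⟨o⟩
  obtain ⟨U, kb, hU, s1, -, s3, s4, -⟩ :=
    st B o hT (hρ.mono (by omega)) Y x0 r 0 hS hI' hv' (hY.mono (by omega))
  obtain ⟨-, a2, a3, -, a5, -, -, a8⟩ := ad B Y x0 U hU
  obtain ⟨-, -, -, -, -, a6, -⟩ := ad B Y x0 Uᶜ hU.compl
  have t := ti B o hT (hρ.mono (by omega)) hE Y x0 r 0 hS hI' (by omega) (hY.mono (by omega))
    Uᶜ hU.compl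
  have c := cp B hL Y hS
  obtain ⟨e1, e2, -⟩ := eu B Y
  obtain ⟨f1, f2, -⟩ := eu B (fullPS B)
  have s := su B Y hS (fr B o hT Y hv')
  have n1 := ea B o hT hL Y x0 hS hI.h0 hc
  have n2 := eb B o hT hL Y x0 hS hI.h0 hc
  obtain ⟨n3, n4⟩ := em B hL
  have l1 := cl B hL Y U hS hU
  have l2 := cl B hL Y Uᶜ hS hU.compl
  have h0 : Y.nD Uᶜ + 2 * Y.deg Uᶜ + 2 ≤ 2 * (Y.nV Uᶜ + Y.nF Uᶜ) := by omega
  have h1 := Nat.mul_le_mul_left C1 (show Y.nD Uᶜ ≤ 2 * (Y.nV Uᶜ + Y.nF Uᶜ) by omega)
  have h2 := Nat.mul_le_mul_left C2 (show Y.ends x0 Uᶜ ≤ 2 * Y.nB Uᶜ by omega)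
  have h3 : 1 ≤ Y.nB Uᶜ := by omega
  linarith

end Pool.Agent.MP_df844f_gt.RA

end
end MrgPart5

-- ======== part 6: formerly Pool.Agent.MP_df844f_gt.RA.s5.ChiP
section MrgPart6

/-! Summing the inequality of one triangle over all triangles. -/

set_option linter.unusedSectionVars false

noncomputable section

namespace Pool.Agent.MP_df844f_gt.RA

variable [Dat]

open PS

namespace ChiPA

/-- Cliques with `k` elements. -/
def T (k : ℕ) : Finset (Finset S) := (Finset.univ.powersetCard k).filter Clq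

theorem mem_T {k : ℕ} {J : Finset S} : J ∈ T k ↔ J.card = k ∧ Clq J := by
  simp [T, Finset.mem_powersetCard]

theorem up {k : ℕ} {J : Finset S} (hJ : J ∈ T k) :
    ((T (k + 1)).filter fun τ => J ⊆ τ).card =
      (Finset.univ.filter fun x => ∀ s ∈ J, adj s x).card := by
  obtain ⟨h1, h2⟩ := mem_T.1 hJ
  have nt : ∀ x, (∀ s ∈ J, adj s x) → x ∉ J := fun x h m => adj_irrefl x (h x m)
  symm
  refine Finset.card_bij (fun x _ => insert x J) (fun x hx => ?_) (fun x hx y hy e => ?_)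
    fun τ hτ => ?_
  · have h := (Finset.mem_filter.1 hx).2
    refine Finset.mem_filter.2 ⟨mem_T.2 ⟨by rw [Finset.card_insert_of_notMem (nt x h), h1],
      fun a ha b hb n => ?_⟩, Finset.subset_insert _ _⟩
    rcases Finset.mem_insert.1 ha with rfl | ha' <;> rcases Finset.mem_insert.1 hb with rfl | hb'
    exacts [absurd rfl n, adj_symm (h b hb'), h a ha', h2 a ha' b hb' n]
  · have : x ∈ insert y J := e ▸ Finset.mem_insert_self x J
    exact (Finset.mem_insert.1 this).resolve_right (nt x (Finset.mem_filter.1 hx).2)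
  · obtain ⟨k1, k2⟩ := Finset.mem_filter.1 hτ
    obtain ⟨x, hx, rfl⟩ := Finset.exists_eq_insert_iff.2 ⟨k2, by rw [(mem_T.1 k1).1, h1]⟩
    exact ⟨x, Finset.mem_filter.2 ⟨Finset.mem_univ _, fun s hs => (mem_T.1 k1).2 s
      (Finset.mem_insert_of_mem hs) x (Finset.mem_insert_self _ _) fun e => hx (e ▸ hs)⟩, rfl⟩

theorem c2 (hF : FactS) : ∀ J ∈ T 2, ((T 3).filter fun τ => J ⊆ τ).card = 2 := by
  intro J hJ
  rw [up hJ]
  obtain ⟨s, t, n, rfl⟩ := Finset.card_eq_two.1 (mem_T.1 hJ).1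
  obtain ⟨u, v, h1, h2⟩ := hF.two s t ((mem_T.1 hJ).2 s (by simp) t (by simp) n)
  rw [← Finset.card_pair h1]
  congr 1
  ext x
  simpa using h2 x

theorem c3 (hF : FactS) : (T 3).card + 4 = 2 * nS := by
  rw [← hF.n3]
  congr 2
  ext J
  simp [mem_T]

theorem c4 (hF : FactS) : (T 2).card + 6 = 3 * nS := by
  rw [← hF.n2]
  congr 2
  ext J
  simp [mem_T]

theorem T_one : T 1 = Finset.univ.map ⟨fun s : S => {s}, Finset.singleton_injective⟩ := by
  ext J
  simp only [mem_T, Finset.card_eq_one, Finset.mem_map, Finset.mem_univ, true_and]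
  constructor
  · rintro ⟨⟨s, rfl⟩, -⟩
    exact ⟨s, rfl⟩
  · rintro ⟨s, rfl⟩
    exact ⟨⟨s, rfl⟩, fun a ha b hb n =>
      absurd ((Finset.mem_singleton.1 ha).trans (Finset.mem_singleton.1 hb).symm) n⟩

theorem f1 (P : Finset S → ℕ) {s t : S} (h : s ≠ t) :
    ∑ J ∈ (T 1).filter (fun J => J ⊆ {s, t}), P J = P {s} + P {t} := by
  rw [← Finset.sum_pair (f := P) (by simpa using h)]
  congr 1
  ext J
  simp only [T_one, Finset.mem_filter, Finset.mem_map, Finset.mem_univ, true_and,
    Function.Embedding.coeFn_mk, Finset.mem_insert, Finset.mem_singleton]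
  constructor
  · rintro ⟨⟨a, rfl⟩, k⟩
    simpa using k
  · rintro (rfl | rfl) <;> simp

theorem clq_pair {s t : S} (h : adj s t) : ({s, t} : Finset S) ∈ T 2 := by
  refine mem_T.2 ⟨Finset.card_pair (adj_ne h), fun a ha b hb n => ?_⟩
  simp only [Finset.mem_insert, Finset.mem_singleton] at ha hb
  rcases ha with rfl | rfl <;> rcases hb with rfl | rfl
  exacts [absurd rfl n, h, adj_symm h, absurd rfl n]

theorem f2 (P : Finset S → ℕ) {s t u : S} (a1 : adj s t) (a2 : adj t u) (a3 : adj s u) :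
    ∑ J ∈ (T 2).filter (fun J => J ⊆ {s, t, u}), P J = P {s, t} + (P {t, u} + P {s, u}) := by
  have n1 := adj_ne a1
  have n2 := adj_ne a2
  have n3 := adj_ne a3
  have e1 : ({t, u} : Finset S) ≠ {s, u} := fun e => by
    have : t ∈ ({s, u} : Finset S) := e ▸ by simp
    simp [n1.symm, n2] at this
  have e2 : ({s, t} : Finset S) ∉ ({{t, u}, {s, u}} : Finset (Finset S)) := fun e => by
    have : u ∈ ({s, t} : Finset S) := by
      rcases Finset.mem_insert.1 e with e | e
      · rw [e]; simp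
      · rw [Finset.mem_singleton.1 e]; simp
    simp [n2.symm, n3.symm] at this
  rw [← Finset.sum_pair (f := P) e1, ← Finset.sum_insert e2]
  congr 1
  ext J
  simp only [Finset.mem_filter, Finset.mem_insert, Finset.mem_singleton]
  constructor
  · rintro ⟨h1, h2⟩
    obtain ⟨a, b, n, rfl⟩ := Finset.card_eq_two.1 (mem_T.1 h1).1
    have ha := h2 (Finset.mem_insert_self _ _)
    have hb := h2 (Finset.mem_insert_of_mem (Finset.mem_singleton_self _))
    simp only [Finset.mem_insert, Finset.mem_singleton] at ha hb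
    rcases ha with rfl | rfl | rfl <;> rcases hb with rfl | rfl | rfl <;>
      first | exact absurd rfl n | simp [Finset.pair_comm]
  · rintro (rfl | rfl | rfl)
    exacts [⟨clq_pair a1, by intro x; simp; tauto⟩, ⟨clq_pair a2, by intro x; simp; tauto⟩,
      ⟨clq_pair a3, by intro x; simp; tauto⟩]

theorem fib {α β : Type} [Finite α] (A : Set α) (f : α → β) (t : Finset β)
    (h : ∀ a ∈ A, f a ∈ t) : A.ncard = ∑ b ∈ t, {a | a ∈ A ∧ f a = b}.ncard := by
  classical
  rw [Set.ncard_eq_toFinset_card A, Finset.card_eq_sum_card_fiberwise (f := f) (t := t)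
    fun a ha => h a (by simpa using ha)]
  refine Finset.sum_congr rfl fun b _ => ?_
  rw [← Set.ncard_coe_finset]
  congr 1
  ext a
  simp

theorem swap (P : Finset S → ℕ) (k m : ℕ)
    (h : ∀ J ∈ T k, ((T (k + 1)).filter fun τ => J ⊆ τ).card = m) :
    ∑ τ ∈ T (k + 1), ∑ J ∈ (T k).filter (fun J => J ⊆ τ), P J = m * ∑ J ∈ T k, P J := by
  simp only [Finset.sum_filter]
  rw [Finset.sum_comm, Finset.mul_sum]
  refine Finset.sum_congr rfl fun J hJ => ?_
  rw [← Finset.sum_filter, Finset.sum_const, h J hJ, smul_eq_mul]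

variable {B : Type} [MulAction W B] (Y : PS B)

/-- The label set of a cell. -/
def lab : Y.Cell → Finset S := Quot.lift (fun p => p.2) fun _ _ h => h.1

theorem cells (k : ℕ) (Q : Y.Om → Finset S → Prop) :
    {c | ∃ x J, J.card = k ∧ Clq J ∧ Q x J ∧ c = Y.cell x J}.ncard =
      ∑ J ∈ T k, {c | ∃ x, Q x J ∧ c = Y.cell x J}.ncard := by
  rw [fib _ (lab Y) (T k)]
  · refine Finset.sum_congr rfl fun J hJ => ?_
    congr 1
    ext c
    constructor
    · rintro ⟨⟨x, J', -, -, h, rfl⟩, rfl⟩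
      exact ⟨x, h, rfl⟩
    · rintro ⟨x, h, rfl⟩
      exact ⟨⟨x, J, (mem_T.1 hJ).1, (mem_T.1 hJ).2, h, rfl⟩, rfl⟩
  · rintro _ ⟨x, J, h1, h2, -, rfl⟩
    exact mem_T.2 ⟨h1, h2⟩

theorem area_eq (hY : Y.State) :
    Y.area + ∑ J ∈ T 1, {x | Y.Full x J}.ncard = nS * Y.vol := by
  unfold area
  rw [fib _ Prod.snd Finset.univ fun _ _ => Finset.mem_univ _, T_one, Finset.sum_map,
    ← Finset.sum_add_distrib]
  have : ∀ s : S, {a : Y.Om × S | a ∈ {p : Y.Om × S | Y.Free p.1 p.2} ∧ a.2 = s}.ncard +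
      {x | Y.Full x {s}}.ncard = Y.vol := fun s => by
    have e1 : {a : Y.Om × S | a ∈ {p : Y.Om × S | Y.Free p.1 p.2} ∧ a.2 = s} =
        (fun x => (x, s)) '' {x | Y.Free x s} := by
      ext ⟨x, t⟩
      constructor
      · rintro ⟨h, rfl⟩
        exact ⟨x, h, rfl⟩
      · rintro ⟨y, h, e⟩
        cases e
        exact ⟨h, rfl⟩
    have e2 : {x | Y.Full x {s}} = {x | Y.Free x s}ᶜ := Set.ext fun _ => hY.full_one
    rw [e1, e2, Set.ncard_image_of_injective _ (Prod.mk_left_injective s),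
      Set.ncard_add_ncard_compl]
    rfl
  exact (Finset.sum_congr rfl fun s _ => this s).trans (by simp [card_S])

theorem nD_eq (hY : Y.State) :
    Y.nD Set.univ + ∑ e ∈ T 2, ∑ J ∈ (T 1).filter (fun J => J ⊆ e), {x | Y.Full x J}.ncard =
      (T 2).card * (2 * Y.vol) := by
  unfold nD
  rw [fib _ (fun p : (Y.Om × S) × S => ({p.1.2, p.2} : Finset S)) (T 2)
    fun p hp => clq_pair hp.2.2, ← Finset.sum_add_distrib, ← smul_eq_mul, ← Finset.sum_const]
  refine Finset.sum_congr rfl fun e he => ?_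
  obtain ⟨s, t, n, rfl⟩ := Finset.card_eq_two.1 (mem_T.1 he).1
  have a : adj s t := (mem_T.1 he).2 s (by simp) t (by simp) n
  have e0 : ∀ s : S, {x | Y.Free x s}.ncard + {x | Y.Full x {s}}.ncard = Y.vol := fun s => by
    have e2 : {x | Y.Full x {s}} = {x | Y.Free x s}ᶜ := Set.ext fun _ => hY.full_one
    rw [e2, Set.ncard_add_ncard_compl]
    rfl
  have e1 : {p : (Y.Om × S) × S | p ∈ {p : (Y.Om × S) × S | p.1.1 ∈ Set.univ ∧
      Y.Free p.1.1 p.1.2 ∧ adj p.1.2 p.2} ∧ ({p.1.2, p.2} : Finset S) = {s, t}} =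
      (fun x => ((x, s), t)) '' {x | Y.Free x s} ∪ (fun x => ((x, t), s)) '' {x | Y.Free x t} := by
    ext ⟨⟨x, u⟩, v⟩
    constructor
    · rintro ⟨⟨-, h1, h2⟩, h3⟩
      have hu : u ∈ ({s, t} : Finset S) := h3 ▸ Finset.mem_insert_self _ _
      have hv : v ∈ ({s, t} : Finset S) :=
        h3 ▸ Finset.mem_insert_of_mem (Finset.mem_singleton_self _)
      simp only [Finset.mem_insert, Finset.mem_singleton] at hu hv
      rcases hu with rfl | rfl <;> rcases hv with rfl | rfl
      exacts [absurd rfl (adj_ne h2), Or.inl ⟨x, h1, rfl⟩, Or.inr ⟨x, h1, rfl⟩,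
        absurd rfl (adj_ne h2)]
    · rintro (⟨y, h, e⟩ | ⟨y, h, e⟩) <;> cases e
      exacts [⟨⟨trivial, h, a⟩, rfl⟩, ⟨⟨trivial, h, adj_symm a⟩, Finset.pair_comm _ _⟩]
  have i : ∀ u v : S, Function.Injective fun x : Y.Om => ((x, u), v) := fun u v x y h =>
    congrArg (fun p : (Y.Om × S) × S => p.1.1) h
  rw [e1, f1 _ n, Set.ncard_union_eq (Set.disjoint_left.2 ?_), Set.ncard_image_of_injective _ (i _ _),
    Set.ncard_image_of_injective _ (i _ _)]
  · have := e0 s
    have := e0 t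
    omega
  · rintro _ ⟨x, -, rfl⟩ ⟨y, -, e⟩
    exact n (congrArg (fun p : (Y.Om × S) × S => p.2) e)

end ChiPA

open ChiPA in
theorem chiP (hF : FactS) (ps : PsizeS) (tv : TauVS) : ChiPS := by
  intro B _ hB Y hY
  have hP : ∀ k, ∑ J ∈ T k, {x | Y.Full x J}.ncard = 2 ^ k * Y.nC k := fun k => by
    unfold nC FC
    rw [cells Y k Y.Full, Finset.mul_sum]
    exact Finset.sum_congr rfl fun J hJ => by rw [ps B hB Y hY J (mem_T.1 hJ).2, (mem_T.1 hJ).1]
  have hV : Y.nV Set.univ =
      ∑ J ∈ T 3, {c | ∃ x, (∃ v ∈ J, Y.Free x v) ∧ c = Y.cell x J}.ncard := by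
    rw [← cells Y 3 fun x J => ∃ v ∈ J, Y.Free x v]
    simp [nV]
  have key : ∀ τ ∈ T 3,
      8 * Y.vol + 2 * ∑ J ∈ (T 2).filter (fun J => J ⊆ τ), {x | Y.Full x J}.ncard ≤
        8 * {c | ∃ x, (∃ v ∈ τ, Y.Free x v) ∧ c = Y.cell x τ}.ncard +
          2 * ∑ e ∈ (T 2).filter (fun J => J ⊆ τ),
            ∑ J ∈ (T 1).filter (fun J => J ⊆ e), {x | Y.Full x J}.ncard +
          2 * {x | Y.Full x τ}.ncard := by
    intro τ hτ
    obtain ⟨h1, h2⟩ := mem_T.1 hτ
    obtain ⟨s, t, u, n1, n2, n3, rfl⟩ := Finset.card_eq_three.1 h1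
    have a1 : adj s t := h2 s (by simp) t (by simp) n1
    have a2 : adj t u := h2 t (by simp) u (by simp) n3
    have a3 : adj s u := h2 s (by simp) u (by simp) n2
    have := tv B hB Y hY s t u a1 a2 a3
    rw [f2 _ a1 a2 a3, f2 _ a1 a2 a3, f1 _ n1, f1 _ n2, f1 _ n3]
    omega
  have h := Finset.sum_le_sum key
  simp only [Finset.sum_add_distrib, ← Finset.mul_sum] at h
  rw [swap _ 2 2 (c2 hF), swap _ 2 2 (c2 hF), ← hV, hP, hP, Finset.sum_const, smul_eq_mul] at h
  have ha := area_eq Y hY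
  have hd := nD_eq Y hY
  have k3 := congrArg (· * Y.vol) (c3 hF)
  have k2 := congrArg (· * Y.vol) (c4 hF)
  rw [hP] at ha
  simp only [Nat.add_mul, Nat.mul_assoc] at k2 k3
  rw [Nat.mul_left_comm] at hd
  omega

end Pool.Agent.MP_df844f_gt.RA

end
end MrgPart6

-- ======== part 7: formerly Pool.Agent.MP_df844f_gt.RA.s5.Coef
section MrgPart7

/-! Full orbits: coefficients of the boundary and the size of the orbits. -/

set_option linter.unusedSectionVars false

noncomputable section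

namespace Pool.Agent.MP_df844f_gt.RA

variable [Dat]

open PS

namespace CoefA

/-- Products of generators from `K`. -/
inductive Gen (K : Finset S) : W → Prop
  | one : Gen K 1
  | mul {s w} : s ∈ K → Gen K w → Gen K (g s * w)

theorem clq_mono {K J : Finset S} (h : Clq J) (k : K ⊆ J) : Clq K :=
  fun s hs t ht => h s (k hs) t (k ht)

theorem Gen.mono {K J : Finset S} {w : W} (h : Gen K w) (k : K ⊆ J) : Gen J w := by
  induction h with
  | one => exact .one
  | mul hs _ ih => exact .mul (k hs) ih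

theorem Gen.split {K : Finset S} {s : S} (hc : Clq (insert s K)) {w : W}
    (h : Gen (insert s K) w) : Gen K w ∨ ∃ w', Gen K w' ∧ w = g s * w' := by
  induction h with
  | one => exact Or.inl .one
  | @mul r w hr _ ih =>
    by_cases e : r = s
    · subst e
      rcases ih with a | ⟨w', a, rfl⟩
      · exact Or.inr ⟨w, a, rfl⟩
      · rw [g_mul_g_mul]; exact Or.inl a
    · have hK : r ∈ K := (Finset.mem_insert.1 hr).resolve_left e
      rcases ih with a | ⟨w', a, rfl⟩
      · exact Or.inl (.mul hK a)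
      · refine Or.inr ⟨g r * w', .mul hK a, ?_⟩
        rw [← mul_assoc, g_comm (hc r hr s (Finset.mem_insert_self _ _) e), mul_assoc]

theorem Gen.len_le {K : Finset S} (hc : Clq K) : ∀ {w : W}, Gen K w → len w ≤ K.card := by
  induction K using Finset.induction_on with
  | empty =>
    intro w h
    cases h with
    | one => rw [len_one]; exact Nat.zero_le _
    | mul hs _ => simp at hs
  | insert s K hs ih =>
    intro w h
    have hK := clq_mono hc (Finset.subset_insert s K)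
    rw [Finset.card_insert_of_notMem hs]
    rcases h.split hc with a | ⟨w', a, rfl⟩
    · exact (ih hK a).trans (Nat.le_succ _)
    · have := len_mul_le (g s) w'
      have := ih hK a
      have := len_g s
      omega

theorem Gen.ne {K : Finset S} {s : S} (hs : s ∉ K) {w : W} (h : Gen K w) : g s * w ≠ 1 := by
  obtain ⟨φ, hφ⟩ := exists_hom (G := Multiplicative (ZMod 2))
    (fun u => if u = s then Multiplicative.ofAdd 1 else 1)
    (fun u => by split_ifs <;> decide) (fun u v _ => mul_comm _ _)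
  have h1 : φ w = 1 := by
    induction h with
    | one => exact map_one φ
    | @mul r w hr _ ih => rw [map_mul, ih, hφ, if_neg (fun e : r = s => hs (e ▸ hr)), one_mul]
  intro e
  have h2 := congrArg φ e
  rw [map_mul, h1, hφ, if_pos rfl, map_one φ] at h2
  exact absurd h2 (by decide)

variable {B : Type} [MulAction W B] {Y : PS B}

theorem pos {K : Finset S} {x y : Y.Om} (h : Y.cell x K = Y.cell y K) :
    ∃ w, Gen K w ∧ Y.f y = w • Y.f x := by
  have := (cell_eq_iff.1 h).2
  clear h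
  induction this with
  | refl => exact ⟨1, .one, (one_smul _ _).symm⟩
  | tail _ q ih =>
    obtain ⟨s, hs, e⟩ := q
    obtain ⟨w, a, b⟩ := ih
    exact ⟨g s * w, .mul hs a, by rw [Y.e_f e, b, mul_smul]⟩

theorem comm (hY : Y.State) {J : Finset S} (hc : Clq J) {y : Y.Om} (h : Y.Full y J) {s t : S}
    (hs : s ∈ J) (ht : t ∈ J) : Y.sg s (Y.sg t y) = Y.sg t (Y.sg s y) := by
  by_cases e : s = t
  · rw [e]
  have a := e_sg (h y rfl s hs)
  have b := e_sg (h _ (cell_sg y hs) t ht)
  have c := e_sg (h _ ((cell_sg _ ht).trans (cell_sg y hs)) s hs)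
  rw [hY.sg_eq (Y.e_symm (hY.close (hc s hs t ht e) a b c)), hY.sg_sg]

theorem cell_sg_sg (hY : Y.State) {J K : Finset S} (hc : Clq J) (k : K ⊆ J) {x y : Y.Om}
    (h : Y.Full x J) {s : S} (hs : s ∈ J) (e : Y.cell x K = Y.cell y K) :
    Y.cell (Y.sg s x) K = Y.cell (Y.sg s y) K := by
  have := (cell_eq_iff.1 e).2
  clear e
  induction this with
  | refl => rfl
  | @tail z z' p q ih =>
    obtain ⟨r, hr, e⟩ := q
    have hz : Y.Full z J := h.congr (cell_mono (cell_eq_iff.2 ⟨rfl, p⟩) k).symm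
    rw [ih, ← hY.sg_eq e, comm hY hc hz hs (k hr), cell_sg _ hr]

theorem split (hY : Y.State) {K : Finset S} {s : S} (hc : Clq (insert s K)) {x y : Y.Om}
    (h : Y.Full x (insert s K)) : Y.cell y (insert s K) = Y.cell x (insert s K) ↔
      Y.cell y K = Y.cell x K ∨ Y.cell y K = Y.cell (Y.sg s x) K := by
  have hs := Finset.mem_insert_self s K
  have k := Finset.subset_insert s K
  constructor
  · intro e
    have := (cell_eq_iff.1 e.symm).2
    clear e
    induction this with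
    | refl => exact Or.inl rfl
    | @tail z z' p q ih =>
      obtain ⟨r, hr, e⟩ := q
      rcases Finset.mem_insert.1 hr with rfl | hK
      · rw [← hY.sg_eq e]
        rcases ih with a | a
        · exact Or.inr (cell_sg_sg hY hc k h hs a.symm).symm
        · have := cell_sg_sg hY hc k (h.congr (cell_sg x hs)) hs a.symm
          rw [hY.sg_sg] at this
          exact Or.inl this.symm
      · rw [← cell_e hK e]; exact ih
  · rintro (a | a)
    · exact cell_mono a k
    · exact (cell_mono a k).trans (cell_sg x hs)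

theorem excl (hF : FactS) (hB : Loc B) {K : Finset S} {s : S} (hc : Clq (insert s K))
    (hs : s ∉ K) {x : Y.Om} (h : ¬ Y.Free x s) : Y.cell x K ≠ Y.cell (Y.sg s x) K := by
  intro e
  obtain ⟨w, a, b⟩ := pos e
  rw [Y.e_f (e_sg h)] at b
  have hg : Gen (insert s K) (g s * w) :=
    .mul (Finset.mem_insert_self _ _) (a.mono (Finset.subset_insert _ _))
  refine a.ne hs (hB (Y.f x) _ ((hg.len_le hc).trans (hF.clq _ hc)) ?_)
  rw [mul_smul, ← b, smul_smul, g_mul_self, one_smul]

theorem orbit (hF : FactS) (hB : Loc B) (hY : Y.State) (J : Finset S) : Clq J → ∀ x, Y.Full x J →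
    {y | Y.cell y J = Y.cell x J}.ncard = 2 ^ J.card := by
  induction J using Finset.induction_on with
  | empty =>
    intro _ x _
    have : {y | Y.cell y ∅ = Y.cell x ∅} = {x} := by
      ext y
      exact ⟨fun h => cell_empty_inj h, fun h => by rw [Set.mem_singleton_iff.1 h]; rfl⟩
    rw [this]; simp
  | insert s K hs ih =>
    intro hc x h
    have k := Finset.subset_insert s K
    have hm := Finset.mem_insert_self s K
    have e : {y | Y.cell y (insert s K) = Y.cell x (insert s K)} =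
        {y | Y.cell y K = Y.cell x K} ∪ {y | Y.cell y K = Y.cell (Y.sg s x) K} := by
      ext y
      exact split hY hc h
    rw [e, Set.ncard_union_eq, ih (clq_mono hc k) x (h.mono k),
      ih (clq_mono hc k) _ ((h.congr (cell_sg x hm)).mono k), Finset.card_insert_of_notMem hs,
      pow_succ, mul_two]
    exact Set.disjoint_left.2 fun y a b => excl hF hB hc hs (h x rfl s hm) (a.symm.trans b)

end CoefA

open CoefA

theorem coef (hF : FactS) : CoefS := by
  intro B _ hB Y hY u x J hc h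
  induction u using Finsupp.induction_linear with
  | zero => simp
  | add a b ha hb =>
    simp only [map_add, Finsupp.add_apply, ha, hb, ← Finset.sum_add_distrib]
    exact Finset.sum_congr rfl fun s _ => add_add_add_comm _ _ _ _
  | single c a =>
    obtain ⟨y, K, rfl⟩ := cell_ind c
    rw [bd_single, Finsupp.finsetSum_apply, Finset.sum_filter]
    rw [← Finset.sum_subset (Finset.subset_univ J)]
    · refine Finset.sum_congr rfl fun s hs => ?_
      have hJ : insert s (J.erase s) = J := Finset.insert_erase hs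
      by_cases e : K = J.erase s
      · have hc' : Clq (insert s K) := by rw [e, hJ]; exact hc
        have h' : Y.Full x (insert s K) := by rw [e, hJ]; exact h
        have hs' : s ∉ K := by rw [e]; exact Finset.notMem_erase s J
        have h1 := split hY hc' h' (y := y)
        have h2 := excl hF hB hc' hs' (h x rfl s hs)
        rw [if_pos fun r hr => hc' r (Finset.mem_insert_of_mem hr) s (Finset.mem_insert_self _ _)
          fun k => hs' (k ▸ hr)]
        rw [← e] at hJ ⊢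
        rw [← hJ]
        simp only [Finsupp.single_apply, h1]
        by_cases a1 : Y.cell y K = Y.cell x K
        · rw [if_pos (Or.inl a1), if_pos a1, if_neg fun k => h2 (a1.symm.trans k), add_zero]
        · simp [a1]
      · have n1 : ∀ z, Y.cell y K ≠ Y.cell z (J.erase s) := fun z k => e (cell_eq_iff.1 k).1
        rw [Finsupp.single_eq_of_ne' (n1 _), Finsupp.single_eq_of_ne' (n1 _), add_zero]
        split_ifs with k
        · refine Finsupp.single_eq_of_ne' fun q => e ?_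
          rw [← (cell_eq_iff.1 q).1, Finset.erase_insert fun r => adj_irrefl s (k s r)]
        · rfl
    · intro s _ hs
      split_ifs
      · refine Finsupp.single_eq_of_ne' fun q => hs ?_
        rw [← (cell_eq_iff.1 q).1]
        exact Finset.mem_insert_self _ _
      · rfl

theorem psize (hF : FactS) : PsizeS := by
  intro B _ hB Y hY J hc
  classical
  have e : {c | ∃ x, Y.Full x J ∧ c = Y.cell x J} =
      ((Set.toFinite {x | Y.Full x J}).toFinset.image fun x => Y.cell x J : Finset Y.Cell) := by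
    ext c
    simp [eq_comm]
  rw [e, Set.ncard_coe_finset, Set.ncard_eq_toFinset_card _ (Set.toFinite _),
    Finset.card_eq_sum_card_image (fun x => Y.cell x J), mul_comm]
  refine Finset.sum_const_nat fun c hc' => ?_
  obtain ⟨x, hx, rfl⟩ := Finset.mem_image.1 hc'
  have hx' : Y.Full x J := by simpa using hx
  rw [← orbit hF hB hY J hc x hx', ← Set.ncard_coe_finset]
  congr 1
  ext y
  simp only [Finset.coe_filter, Set.Finite.mem_toFinset, Set.mem_ofPred_eq, and_iff_right_iff_imp]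
  exact fun k => hx'.congr k

end Pool.Agent.MP_df844f_gt.RA

end
end MrgPart7

-- ======== part 8: formerly Pool.Agent.MP_df844f_gt.RA.s5.CoreA
section MrgPart8

/-! Cocycles of a final state come from the closed manifold. -/

set_option linter.unusedSectionVars false

noncomputable section

namespace Pool.Agent.MP_df844f_gt.RA

variable [Dat]

open PS

theorem coreA : CoreAS := by
  intro B _ o hT Y x0 h0 hc c hcoc
  have h2 : (2 : F2) = 0 := by decide
  obtain ⟨P, hP⟩ := hc (fun l _ => c l ()) ⟨fun s x y _ h => hcoc.symm s x y () h,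
    fun a _ => hcoc.dsym a (), fun s t x0 x1 x2 x3 _ a b1 b2 b3 b4 =>
      hcoc.sq s t x0 x1 x2 x3 () a b1 b2 b3 b4⟩
  have ed : ∀ s x y (w : W), Y.e s x y → c (.edge s x y) () = P x w + P y (g s * w) := hP.ed
  have da : ∀ a (w : W), c (.dart a) () =
      P (Y.src a) w + P (Y.src (Y.rev a)) (Y.lab a * w) := hP.da
  choose t ht using hT
  have key : ∀ (γ : W) x w, w • o = Y.f x → P x (w * γ) + P x w = P x0 γ + P x0 1 := by
    intro γ x w hw
    have := h0.2 F2 (fun x w => P x (w * γ) + P x w) ⟨fun s x y w h => ?_, fun a w => ?_⟩ x w hw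
    · rwa [one_mul] at this
    · rw [mul_assoc]
      linear_combination ed s x y w h - ed s x y (w * γ) h +
        (P y (g s * w) - P x (w * γ)) * h2
    · rw [mul_assoc]
      linear_combination da a w - da a (w * γ) +
        (P (Y.src (Y.rev a)) (Y.lab a * w) - P (Y.src a) (w * γ)) * h2
  let ψ : W → F2 := fun w => P x0 ((t (w • o))⁻¹ * w) + P x0 1
  have k1 : ∀ x w, w • o = Y.f x → P x w = P x (t (Y.f x)) + ψ w := by
    intro x w hw
    have := key ((t (w • o))⁻¹ * w) x (t (w • o)) ((ht _).trans hw)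
    rw [mul_inv_cancel_left] at this
    rw [← hw]
    linear_combination this - P x (t (w • o)) * h2
  have k2 : ∀ w γ : W, γ • o = o → ψ (w * γ) = ψ w + (P x0 γ + P x0 1) := by
    intro w γ hγ
    have := key γ x0 ((t (w • o))⁻¹ * w) (by rw [mul_smul, inv_smul_eq_iff, h0.1, ht])
    simp only [ψ]
    rw [mul_smul, hγ, ← mul_assoc]
    linear_combination this - P x0 ((t (w • o))⁻¹ * w) * h2
  refine ⟨fun s b => ψ (t b) + ψ (g s * t b), ψ, fun x => P x (t (Y.f x)), fun s w => ?_,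
    fun s x y h => ?_, fun a w hw => ?_⟩
  · have hγ : ((t (w • o))⁻¹ * w) • o = o := by rw [mul_smul, inv_smul_eq_iff, ht]
    have a1 := k2 (t (w • o)) _ hγ
    have a2 := k2 (g s * t (w • o)) _ hγ
    rw [mul_inv_cancel_left] at a1
    rw [mul_assoc, mul_inv_cancel_left] at a2
    linear_combination -a1 - a2 - (P x0 ((t (w • o))⁻¹ * w) + P x0 1) * h2
  · have a1 := k1 x (t (Y.f x)) (ht _)
    have a2 := k1 y (g s * t (Y.f x)) (by rw [mul_smul, ht, Y.e_f h])
    linear_combination ed s x y (t (Y.f x)) h + a1 + a2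
  · have a1 := k1 (Y.src a) w hw
    have a2 := k1 (Y.src (Y.rev a)) (Y.lab a * w) (by rw [mul_smul, hw, Y.f_rev])
    linear_combination da a w + a1 + a2

end Pool.Agent.MP_df844f_gt.RA

end
end MrgPart8

-- ======== part 9: formerly Pool.Agent.MP_df844f_gt.RA.s5.CoreB
section MrgPart9

/-! A 2-cocycle of the manifold that dies on a state with acyclic cover is a coboundary. -/

set_option linter.unusedSectionVars false

noncomputable section

namespace Pool.Agent.MP_df844f_gt.RA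

variable [Dat]

open PS

namespace CoreBA

theorem two : (2 : F2) = 0 := by decide

/-- A function that is constant along edges of `W` is constant. -/
theorem const_of (F : W → F2) (h : ∀ s w, F (g s * w) = F w) (w : W) : F w = F 1 :=
  induction_left (p := fun w => F w = F 1) w rfl fun w s ih => (h s w).trans ih

/-- Sums of `η` along a word for `u`. -/
theorem path_sum (η : S → W → F2) (u : W) : ∃ P : W → F2, ∀ (γ : W) (θ : W → F2),
    (∀ s w, η s w + η s (w * γ) = θ w + θ (g s * w)) →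
      ∀ w, P w + P (w * γ) = θ w + θ (u * w) := by
  refine induction_left (p := fun u => ∃ P : W → F2, ∀ (γ : W) (θ : W → F2),
    (∀ s w, η s w + η s (w * γ) = θ w + θ (g s * w)) →
      ∀ w, P w + P (w * γ) = θ w + θ (u * w)) u ⟨fun _ => 0, fun γ θ _ w => ?_⟩ ?_
  · rw [one_mul]
    linear_combination (-θ w) * two
  · rintro u s ⟨P, hP⟩
    refine ⟨fun w => P w + η s (u * w), fun γ θ h w => ?_⟩
    have h1 := hP γ θ h w
    have h2 := h s (u * w)
    rw [mul_assoc] at h2
    rw [mul_assoc]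
    linear_combination h1 + h2 + θ (u * w) * two

/-- Symmetric values on darts. -/
theorem darts {B : Type} [MulAction W B] (Y : PS B) (η : S → W → F2) :
    ∃ P : Y.A → W → F2, (∀ a w, P (Y.rev a) (Y.lab a * w) = P a w) ∧ ∀ (γ : W) (θ : W → F2),
      (∀ s w, η s w + η s (w * γ) = θ w + θ (g s * w)) →
        ∀ a w, P a w + P a (w * γ) = θ w + θ (Y.lab a * w) := by
  choose P hP using path_sum η
  obtain ⟨ix, hix⟩ := Countable.exists_injective_nat Y.A
  refine ⟨fun a w => if ix a < ix (Y.rev a) then P (Y.lab a) w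
    else P (Y.lab (Y.rev a)) (Y.lab a * w), fun a w => ?_, fun γ θ h a w => ?_⟩
  · have hne : ix (Y.rev a) ≠ ix a := fun h => Y.rev_ne a (hix h)
    simp only [Y.rev_rev]
    by_cases h : ix a < ix (Y.rev a)
    · rw [if_pos h, if_neg (by omega), Y.lab_rev, inv_mul_cancel_left]
    · rw [if_neg h, if_pos (by omega)]
  · by_cases h1 : ix a < ix (Y.rev a)
    · simp only [if_pos h1]
      exact hP _ γ θ h w
    · simp only [if_neg h1]
      have := hP (Y.lab (Y.rev a)) γ θ h (Y.lab a * w)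
      rw [mul_assoc, Y.lab_rev a, inv_mul_cancel_left] at this
      rw [Y.lab_rev a, this, add_comm]

theorem sq_pos {s t : S} (h : adj s t) (w : W) : g t * (g s * w) = g s * (g t * w) := by
  rw [← mul_assoc, ← g_comm h, mul_assoc]

end CoreBA

open CoreBA in
theorem coreB (h1 : H1S) (h2 : H2S) : CoreBS := by
  intro B _ o htr Y x0 hH hA z c z1 z2 z3 c1 c2
  classical
  obtain ⟨η, η1, η2⟩ := h2 (fun s t w => z s t (w • o)) (fun s t w h => z1 s t _ h)
    (fun s t w h => by simp only [mul_smul]; exact z2 s t _ h)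
    (fun s t u w a b e => by simp only [mul_smul]; exact z3 s t u _ a b e)
  obtain ⟨P, P1, P2⟩ := darts Y η
  have ve : ∀ {s x y} (w : W), Y.e s x y → ((g s * w) • o = Y.f y ↔ w • o = Y.f x) := by
    intro s x y w h
    rw [Y.e_f h, mul_smul, smul_left_cancel_iff]
  have va : ∀ a (w : W), (Y.lab a * w) • o = Y.f (Y.src (Y.rev a)) ↔ w • o = Y.f (Y.src a) := by
    intro a w
    rw [Y.f_rev, mul_smul, smul_left_cancel_iff]
  let C : Y.Coch W := fun l w => match l with
    | .edge s x y => if w • o = Y.f x then c s x y + η s w else 0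
    | .dart a => P a w
  obtain ⟨φ, φ1, φ2⟩ := hA C ⟨fun s x y w h => by
      simp only [C, smul_eq_mul, ve w h, c1 s x y h, η1], fun a w => P1 a w,
    fun s t y0 y1 y2 y3 w hst e0 e1 e2 e3 => by
      simp only [C, smul_eq_mul, ve _ e2, ve _ e1, ve _ e0]
      split_ifs with hv
      · have a1 := c2 s t y0 y1 y2 y3 hst e0 e1 e2 e3
        have a2 := η2 s t w hst
        rw [sq_pos hst, g_mul_g_mul, η1, η1]
        rw [hv] at a2
        linear_combination a1 - a2 + z s t (Y.f y0) * two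
      · simp⟩
  have hθ : ∀ γ : W, γ • o = o → ∃ θ : W → F2,
      (∀ s w, η s w + η s (w * γ) = θ w + θ (g s * w)) ∧
        ∀ x w, w • o = Y.f x → θ w = φ x w + φ x (w * γ) := by
    intro γ hγ
    have hw : ∀ w : W, (w * γ) • o = w • o := fun w => by rw [mul_smul, hγ]
    obtain ⟨θ, hθ⟩ := h1 Set.univ (fun _ _ _ _ _ _ => trivial) (fun s w => η s w + η s (w * γ))
      (fun s w _ _ => by rw [mul_assoc, η1, η1]) (fun s t w hst _ _ _ _ => by
        have a1 := η2 s t w hst
        have a2 := η2 s t (w * γ) hst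
        simp only [hw] at a2
        simp only [mul_assoc]
        linear_combination -a1 - a2 + z s t (w • o) * two)
    replace hθ := fun s w => hθ s w trivial trivial
    have hL : LocC (Y := Y) fun x w =>
        if w • o = Y.f x then φ x w + φ x (w * γ) + θ w else 0 := by
      refine ⟨fun s x y w h => ?_, fun a w => ?_⟩
      · simp only [ve w h]
        split_ifs with hv
        · have a1 := φ1 s x y w h
          have a2 := φ1 s x y (w * γ) h
          have a3 := hθ s w
          simp only [C, smul_eq_mul, hw, if_pos hv] at a1 a2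
          rw [mul_assoc]
          linear_combination -a1 - a2 - a3 + (c s x y + η s w + η s (w * γ) - φ x w -
            φ x (w * γ) - θ w) * two
        · rfl
      · simp only [va a w]
        split_ifs with hv
        · have a1 := φ2 a w
          have a2 := φ2 a (w * γ)
          have a3 := P2 γ θ hθ a w
          simp only [C, smul_eq_mul] at a1 a2
          rw [mul_assoc]
          linear_combination -a1 - a2 - a3 + (P a w + P a (w * γ) - φ (Y.src a) w -
            φ (Y.src a) (w * γ) - θ w) * two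
        · rfl
    refine ⟨fun w => θ w + (φ x0 1 + φ x0 (1 * γ) + θ 1), fun s w => ?_, fun x w hv => ?_⟩
    · linear_combination hθ s w - (φ x0 1 + φ x0 (1 * γ) + θ 1) * two
    · have := hH.2 _ _ hL x w hv
      simp only [if_pos hv, one_smul, if_pos hH.1.symm] at this
      linear_combination -this + θ w * two
  choose! θ θ1 θ2 using hθ
  have coc : ∀ γ γ' : W, γ • o = o → γ' • o = o → ∀ w,
      θ (γ * γ') w + θ γ w + θ γ' (w * γ) = 0 := by
    intro γ γ' a b w
    have ab : (γ * γ') • o = o := by rw [mul_smul, b, a]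
    rw [const_of (fun w => θ (γ * γ') w + θ γ w + θ γ' (w * γ)) (fun s w => ?_) w]
    · have hx : (1 : W) • o = Y.f x0 := by rw [one_smul, hH.1]
      have a1 := θ2 _ ab x0 1 hx
      have a2 := θ2 _ a x0 1 hx
      have a3 := θ2 _ b x0 γ (a.trans hH.1.symm)
      simp only [one_mul] at a1 a2 ⊢
      linear_combination a1 + a2 + a3 + (φ x0 1 + φ x0 γ + φ x0 (γ * γ')) * two
    · have a1 := θ1 _ ab s w
      have a2 := θ1 _ a s w
      have a3 := θ1 _ b s (w * γ)
      simp only [mul_assoc] at a3 ⊢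
      linear_combination -a1 - a2 - a3 + (η s w + η s (w * γ) + η s (w * (γ * γ')) -
        θ (γ * γ') w - θ γ w - θ γ' (w * γ)) * two
  choose t ht using htr
  have ret : ∀ w : W, ((t (w • o))⁻¹ * w) • o = o := fun w => by
    rw [mul_smul, inv_smul_eq_iff, ht]
  let ψ : W → F2 := fun w => θ ((t (w • o))⁻¹ * w) (t (w • o))
  have hψ : ∀ γ w : W, γ • o = o → ψ (w * γ) + ψ w + θ γ w = 0 := by
    intro γ w hγ
    have := coc _ γ (ret w) hγ (t (w • o))
    rw [mul_inv_cancel_left] at this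
    simp only [ψ, mul_smul w γ, hγ, ← mul_assoc]
    exact this
  have inv : ∀ s (w : W), η s (t (w • o)) + ψ (t (w • o)) + ψ (g s * t (w • o)) =
      η s w + ψ w + ψ (g s * w) := by
    intro s w
    have a1 := θ1 _ (ret w) s (t (w • o))
    have a2 := hψ _ (t (w • o)) (ret w)
    have a3 := hψ _ (g s * t (w • o)) (ret w)
    rw [mul_assoc] at a3
    rw [mul_inv_cancel_left] at a1 a2 a3
    linear_combination a1 + a2 + a3 - (η s w + ψ w + ψ (g s * w)) * two
  refine ⟨fun s b => η s (t b) + ψ (t b) + ψ (g s * t b), fun s b => ?_, fun s u b hsu => ?_⟩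
  · have := inv s (g s * t b)
    rw [mul_smul, ht, η1, g_mul_g_mul] at this
    linear_combination this
  · have a1 := inv s (g u * t b)
    have a2 := inv u (g s * t b)
    have a3 := η2 s u (t b) hsu
    rw [mul_smul, ht] at a1 a2
    rw [sq_pos hsu] at a2
    simp only [ht] at a3
    linear_combination a3 - a1 - a2 - (ψ (t b) + ψ (g s * t b) + ψ (g u * t b) +
      ψ (g s * (g u * t b))) * two

end Pool.Agent.MP_df844f_gt.RA

end
end MrgPart9

-- ======== part 10: formerly Pool.Agent.MP_df844f_gt.RA.s5.EndB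
section MrgPart10

/-! The pull-back from the closed manifold is injective on second cohomology. -/

set_option linter.unusedSectionVars false

noncomputable section

namespace Pool.Agent.MP_df844f_gt.RA

variable [Dat]

open PS

namespace EndBA

theorem rk {K V V' : Type} [Field K] [AddCommGroup V] [Module K V] [AddCommGroup V'] [Module K V']
    [FiniteDimensional K V] (P : V →ₗ[K] V') (Z : Submodule K V) :
    Module.finrank K (Z.map P) + Module.finrank K (Z ⊓ LinearMap.ker P : Submodule K V) =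
      Module.finrank K Z := by
  have h := LinearMap.finrank_range_add_finrank_ker (P.domRestrict Z)
  rwa [LinearMap.range_domRestrict, LinearMap.ker_domRestrict,
    ← Submodule.finrank_map_subtype_eq Z, Submodule.map_comap_subtype] at h

theorem key {K V V' : Type} [Field K] [AddCommGroup V] [Module K V] [AddCommGroup V'] [Module K V']
    [FiniteDimensional K V] [FiniteDimensional K V'] (P : V →ₗ[K] V') (Z D : Submodule K V)
    (Z' D' : Submodule K V') (h0 : D' ≤ Z') (h1 : ∀ u ∈ Z, P u ∈ Z')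
    (h2 : ∀ u ∈ Z, P u ∈ D' → u ∈ D) :
    Module.finrank K Z + Module.finrank K D' ≤ Module.finrank K Z' + Module.finrank K D := by
  have a := rk P Z
  have b := rk P (Z ⊓ D'.comap P)
  have c := Submodule.finrank_sup_add_finrank_inf_eq (Z.map P) D'
  have e1 : (Z ⊓ D'.comap P).map P = Z.map P ⊓ D' := by
    refine le_antisymm ?_ ?_
    · rintro _ ⟨u, ⟨hu, hv⟩, rfl⟩
      exact ⟨⟨u, hu, rfl⟩, hv⟩
    · rintro _ ⟨⟨u, hu, rfl⟩, hv⟩
      exact ⟨u, ⟨hu, hv⟩, rfl⟩
  have e2 : (Z ⊓ D'.comap P) ⊓ LinearMap.ker P = Z ⊓ LinearMap.ker P := by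
    refine le_antisymm (fun u hu => ⟨hu.1.1, hu.2⟩) fun u hu => ⟨⟨hu.1, ?_⟩, hu.2⟩
    show P u ∈ D'
    rw [LinearMap.mem_ker.1 hu.2]
    exact D'.zero_mem
  rw [e1, e2] at b
  have d1 : Module.finrank K (Z.map P ⊔ D' : Submodule K V') ≤ Module.finrank K Z' := by
    refine Submodule.finrank_mono (sup_le ?_ h0)
    rintro _ ⟨u, hu, rfl⟩
    exact h1 u hu
  have d2 : Module.finrank K (Z ⊓ D'.comap P : Submodule K V) ≤ Module.finrank K D :=
    Submodule.finrank_mono fun u hu => h2 u hu.1 hu.2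
  omega

variable {B : Type} [MulAction W B] [Finite B]

/-- The map to the closed manifold. -/
def toM (Y : PS B) : EHom Y (fullPS B) := ⟨Y.f, fun h => Y.e_f h⟩

theorem full_M (b : B) (J : Finset S) : (fullPS B).Full b J :=
  fun y _ s _ h => h ⟨g s • (show B from y), rfl⟩

theorem sg_M (s : S) (b : B) : (fullPS B).sg s b = g s • b :=
  (fullPS_state B).sg_eq rfl

theorem mem_M (b : B) {J : Finset S} (h : Clq J) : (fullPS B).cell b J ∈ (fullPS B).FC J.card :=
  ⟨b, J, rfl, h, full_M b J, rfl⟩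

open Classical in
/-- Pull-back of cochains of degree `k`. -/
noncomputable def pb (Y : PS B) (k : ℕ) : (fullPS B).Chain →ₗ[F2] Y.Chain :=
  (Y.Ck k).subtype ∘ₗ Finsupp.restrictDom F2 F2 (Y.FC k) ∘ₗ
    (Finsupp.linearEquivFunOnFinite F2 F2 Y.Cell).symm.toLinearMap ∘ₗ
      LinearMap.funLeft F2 F2 (toM Y).cmap ∘ₗ
        (Finsupp.linearEquivFunOnFinite F2 F2 (fullPS B).Cell).toLinearMap

open Classical in
theorem pb_apply (Y : PS B) (k : ℕ) (u : (fullPS B).Chain) (c : Y.Cell) :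
    pb Y k u c = if c ∈ Y.FC k then u ((toM Y).cmap c) else 0 := by
  show (Finsupp.restrictDom F2 F2 (Y.FC k) _ : Y.Chain) c = _
  rw [Finsupp.restrictDom_apply, Finsupp.filter_apply]
  rfl

open Classical in
theorem pb_mem (Y : PS B) (k : ℕ) (u : (fullPS B).Chain) : pb Y k u ∈ Y.Ck k :=
  (Finsupp.restrictDom F2 F2 (Y.FC k) _).2

theorem pb_cell (Y : PS B) (u : (fullPS B).Chain) {x : Y.Om} {J : Finset S} {k : ℕ}
    (h1 : J.card = k) (h2 : Clq J) (h3 : Y.Full x J) :
    pb Y k u (Y.cell x J) = u ((fullPS B).cell (Y.f x) J) := by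
  rw [pb_apply, if_pos ⟨x, J, h1, h2, h3, rfl⟩]
  rfl

theorem clq_erase {J : Finset S} (h : Clq J) (s : S) : Clq (J.erase s) :=
  fun a ha b hb => h a (Finset.mem_of_mem_erase ha) b (Finset.mem_of_mem_erase hb)

theorem pb_cocyc (co : CoefS) (hB : Loc B) {Y : PS B} (hY : Y.State) (u : (fullPS B).Chain)
    (hu : (fullPS B).dl 3 u = 0) : Y.dl 3 (pb Y 2 u) = 0 := by
  classical
  refine Finsupp.ext fun c => ?_
  rw [EulerA.dl_apply]
  split_ifs with h
  · obtain ⟨x, J, h1, h2, h3, rfl⟩ := h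
    have k := congrArg (fun v : (fullPS B).Chain => v ((fullPS B).cell (Y.f x) J)) hu
    have m : (fullPS B).cell (Y.f x) J ∈ (fullPS B).FC 3 := h1 ▸ mem_M (Y.f x) h2
    simp only [EulerA.dl_apply, if_pos m] at k
    rw [co B hB _ (fullPS_state B) u _ J h2 (full_M _ J)] at k
    rw [co B hB Y hY _ x J h2 h3]
    refine Eq.trans (Finset.sum_congr rfl fun s hs => ?_) k
    have c2 : (J.erase s).card = 2 := by rw [Finset.card_erase_of_mem hs, h1]
    rw [pb_cell Y u c2 (clq_erase h2 s) (h3.mono (Finset.erase_subset s J)),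
      pb_cell Y u c2 (clq_erase h2 s)
        ((h3.congr (cell_sg x hs)).mono (Finset.erase_subset s J)),
      sg_M, Y.e_f (e_sg (h3 x rfl s hs))]
  · rfl

theorem clq2 {s t : S} (h : adj s t) : Clq {s, t} := by
  intro a ha b hb n
  simp only [Finset.mem_insert, Finset.mem_singleton] at ha hb
  rcases ha with rfl | rfl <;> rcases hb with rfl | rfl
  exacts [absurd rfl n, h, adj_symm h, absurd rfl n]

theorem sum2 {s t : S} (h : adj s t) (F : S → Finset S → F2) :
    ∑ a ∈ ({s, t} : Finset S), F a (({s, t} : Finset S).erase a) = F s {t} + F t {s} := by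
  have e1 : ({s, t} : Finset S).erase s = {t} :=
    Finset.erase_insert (Finset.notMem_singleton.2 (adj_ne h))
  have e2 : ({s, t} : Finset S).erase t = {s} := by
    rw [Finset.pair_comm]
    exact Finset.erase_insert (Finset.notMem_singleton.2 (adj_ne h).symm)
  rw [Finset.sum_pair (adj_ne h), e1, e2]

theorem clq3 {s t u : S} (h1 : adj s t) (h2 : adj t u) (h3 : adj s u) : Clq {s, t, u} := by
  intro a ha b hb n
  simp only [Finset.mem_insert, Finset.mem_singleton] at ha hb
  rcases ha with rfl | rfl | rfl <;> rcases hb with rfl | rfl | rfl <;>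
    first | exact absurd rfl n | assumption | exact adj_symm ‹_›

theorem sum3 {s t u : S} (h1 : adj s t) (h2 : adj t u) (h3 : adj s u) (F : S → Finset S → F2) :
    ∑ a ∈ ({s, t, u} : Finset S), F a (({s, t, u} : Finset S).erase a) =
      F s {t, u} + F t {s, u} + F u {s, t} := by
  have n1 := adj_ne h1
  have n2 := adj_ne h2
  have n3 := adj_ne h3
  have e1 : ({s, t, u} : Finset S).erase s = {t, u} := by
    ext a; simp only [Finset.mem_erase, Finset.mem_insert, Finset.mem_singleton]; grind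
  have e2 : ({s, t, u} : Finset S).erase t = {s, u} := by
    ext a; simp only [Finset.mem_erase, Finset.mem_insert, Finset.mem_singleton]; grind
  have e3 : ({s, t, u} : Finset S).erase u = {s, t} := by
    ext a; simp only [Finset.mem_erase, Finset.mem_insert, Finset.mem_singleton]; grind
  rw [Finset.sum_insert (by simp [n1, n3]), Finset.sum_pair n2, e1, e2, e3, add_assoc]

omit [Finite B] in
theorem full_sq {Y : PS B} (hY : Y.State) {s t : S} {x0 x1 x2 x3 : Y.Om} (h : adj s t)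
    (a : Y.e s x0 x1) (b : Y.e t x1 x2) (c : Y.e s x2 x3) (e : Y.e t x3 x0) :
    Y.Full x0 {s, t} := by
  intro y hy u hu fr
  have o := hY.orb2 h hy.symm
  rw [hY.sg_eq a, hY.sg_eq (Y.e_symm e), hY.sg_eq b, hY.sg_eq (Y.e_symm c)] at o
  simp only [Finset.mem_insert, Finset.mem_singleton] at hu
  rcases hu with rfl | rfl <;> rcases o with rfl | rfl | rfl | rfl | rfl <;>
    first
      | exact fr ⟨_, a⟩ | exact fr ⟨_, Y.e_symm a⟩ | exact fr ⟨_, b⟩ | exact fr ⟨_, Y.e_symm b⟩
      | exact fr ⟨_, c⟩ | exact fr ⟨_, Y.e_symm c⟩ | exact fr ⟨_, e⟩ | exact fr ⟨_, Y.e_symm e⟩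

/-- The degree one cochain of the manifold given by `η`. -/
def lift1 (η : S → B → F2) (hη : ∀ s b, η s (g s • b) = η s b) : (fullPS B).Cell → F2 :=
  Quot.lift (fun p => if p.2.card = 1 then ∑ s ∈ p.2, η s p.1 else 0) (by
    rintro ⟨x, J⟩ ⟨y, J'⟩ ⟨h1, s, hs, h2⟩
    obtain rfl : J = J' := h1
    show (if J.card = 1 then ∑ s ∈ J, η s x else 0) = if J.card = 1 then ∑ s ∈ J, η s y else 0
    split_ifs with k
    · obtain ⟨t, rfl⟩ := Finset.card_eq_one.1 k
      obtain rfl := Finset.mem_singleton.1 hs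
      have h3 : y = g s • (show B from x) := h2
      rw [Finset.sum_singleton, Finset.sum_singleton, h3, hη]
    · rfl)

theorem lift1_cell (η : S → B → F2) (hη : ∀ s b, η s (g s • b) = η s b) (b : B) (J : Finset S) :
    lift1 η hη ((fullPS B).cell b J) = if J.card = 1 then ∑ s ∈ J, η s b else 0 := rfl

theorem cobd (co : CoefS) (hB : Loc B) (u : (fullPS B).Chain) (hu : u ∈ (fullPS B).Ck 2)
    (η : S → B → F2) (hη : ∀ s b, η s (g s • b) = η s b)
    (h : ∀ s t (b : B), adj s t → u ((fullPS B).cell b {s, t}) =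
      η s b + η s (g t • b) + η t b + η t (g s • b)) :
    u ∈ ((fullPS B).Ck 1).map ((fullPS B).dl 2) := by
  classical
  refine ⟨Finsupp.equivFunOnFinite.symm (lift1 η hη), ?_, Finsupp.ext fun c => ?_⟩
  · refine (Finsupp.mem_supported' F2 _).2 fun c hc => ?_
    obtain ⟨x, J, rfl⟩ := cell_ind c
    show lift1 η hη ((fullPS B).cell x J) = 0
    rw [lift1_cell, if_neg]
    intro k
    refine hc (k ▸ mem_M (B := B) x ?_)
    obtain ⟨t, rfl⟩ := Finset.card_eq_one.1 k
    intro a ha b hb n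
    exact absurd ((Finset.mem_singleton.1 ha).trans (Finset.mem_singleton.1 hb).symm) n
  · rw [EulerA.dl_apply]
    split_ifs with k
    · obtain ⟨x, J, h1, h2, h3, rfl⟩ := k
      obtain ⟨s, t, n, rfl⟩ := Finset.card_eq_two.1 h1
      have a : adj s t := h2 s (by simp) t (by simp) n
      rw [co B hB _ (fullPS_state B) _ x _ h2 h3,
        sum2 a fun v J => Finsupp.equivFunOnFinite.symm (lift1 η hη) ((fullPS B).cell x J) +
          Finsupp.equivFunOnFinite.symm (lift1 η hη) ((fullPS B).cell ((fullPS B).sg v x) J),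
        h s t x a, sg_M, sg_M]
      simp only [Finsupp.coe_equivFunOnFinite_symm, lift1_cell, Finset.card_singleton, if_true,
        Finset.sum_singleton]
      ring
    · exact ((Finsupp.mem_supported' F2 _).1 hu c k).symm

end EndBA

open EndBA in
theorem endB (co : CoefS) (cb : CoreBS) : EndBS := by
  intro B _ _ o ht hB Y x0 hY h0 hc
  classical
  refine key (pb Y 2) _ _ _ _ ?_ ?_ ?_
  · rintro _ ⟨u, -, rfl⟩
    exact ⟨EulerA.dl_mem Y 2 u, EulerA.dl_dl Y 2 u⟩
  · exact fun u hu => ⟨pb_mem Y 2 u, pb_cocyc co hB hY u hu.2⟩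
  · rintro u ⟨hu, hz⟩ ⟨v, -, hv⟩
    obtain ⟨η, hη, h⟩ := cb B o ht Y x0 h0 hc (fun s t b => u ((fullPS B).cell b {s, t}))
      (fun s x _ => v (Y.cell x {s})) (fun s t b _ => by rw [Finset.pair_comm])
      (fun s t b _ => by
        show u ((fullPS B).cell (g s • b) {s, t}) = u ((fullPS B).cell b {s, t})
        rw [cell_e (Y := fullPS B) (s := s) (x := b) (y := g s • b) (by simp) rfl])
      (fun s t w b h1 h2 h3 => by
        have k := congrArg (fun v : (fullPS B).Chain => v ((fullPS B).cell b {s, t, w}))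
          (LinearMap.mem_ker.1 hz)
        have c3 : ({s, t, w} : Finset S).card = 3 :=
          Finset.card_eq_three.2 ⟨s, t, w, adj_ne h1, adj_ne h3, adj_ne h2, rfl⟩
        have m : (fullPS B).cell b {s, t, w} ∈ (fullPS B).FC 3 := c3 ▸ mem_M b (clq3 h1 h2 h3)
        simp only [EulerA.dl_apply, if_pos m] at k
        rw [co B hB _ (fullPS_state B) u _ _ (clq3 h1 h2 h3) (full_M _ _),
          sum3 h1 h2 h3 fun a J => u ((fullPS B).cell b J) +
            u ((fullPS B).cell ((fullPS B).sg a b) J), sg_M, sg_M, sg_M] at k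
        refine Eq.trans ?_ k
        ring)
      (fun s x y e => by rw [cell_e (Finset.mem_singleton_self s) e])
      (fun s t x0 x1 x2 x3 h a b c e => by
        have fu := full_sq hY h a b c e
        have c2 : ({s, t} : Finset S).card = 2 := Finset.card_pair (adj_ne h)
        have k := congrArg (fun v : Y.Chain => v (Y.cell x0 {s, t})) hv
        have m : Y.cell x0 {s, t} ∈ Y.FC 2 := ⟨x0, _, c2, clq2 h, fu, rfl⟩
        simp only [EulerA.dl_apply, if_pos m] at k
        rw [pb_cell Y u c2 (clq2 h) fu, co B hB Y hY v _ _ (clq2 h) fu,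
          sum2 h fun a J => v (Y.cell x0 J) + v (Y.cell (Y.sg a x0) J), hY.sg_eq a,
          hY.sg_eq (Y.e_symm e)] at k
        refine Eq.trans ?_ k
        show v (Y.cell x0 {s}) + v (Y.cell x1 {t}) + v (Y.cell x2 {s}) + v (Y.cell x3 {t}) = _
        rw [cell_e (Finset.mem_singleton_self s) c, cell_e (Finset.mem_singleton_self t) e]
        ring)
    exact cobd co hB u hu η hη h

end Pool.Agent.MP_df844f_gt.RA

end
end MrgPart10

-- ======== part 11: formerly Pool.Agent.MP_df844f_gt.RA.x.All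
section MrgPart11

/-! Assembly. -/

set_option linter.unusedSectionVars false

noncomputable section

namespace Pool.Agent.MP_df844f_gt.RA.XAll

variable [Dat]

open WAll

theorem attA : AttS := att factA
theorem sweep0A : Sweep0S := sweep0 (step factA)
theorem bdA : BdS := bdS edgeS
theorem pushA : PushS :=
  push (cutW (sub sp1A dehnA) closeDA dehnA) (short hS gcvxA hullA ballA) clos dehnA closeDA
theorem gainA : GainS :=
  gain (cap factA (wedge2 h1A) clos hullA fillA) (sweep2 sweep0A attA clos) count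
    (rem hS qA clos) lamS
theorem lemA : LemSS := lemS forest tree
theorem instA : InstS := inst factA edgeS bdA
theorem tineqA : TIneqS := tineq gainA (absS lemA) instA
theorem coefA : CoefS := coef factA
theorem psizeA : PsizeS := psize factA
theorem chiPA : ChiPS := chiP factA psizeA (tauV factA coefA psizeA)
theorem structA : StructS :=
  struct (bead sweep0A attA clos edgeS bdA) (beadDeg m1 m2) freeEx
theorem mainA : MainS :=
  mainS (init h1A) pushA
    (areaS tineqA chiPA euler (surj factA) freeEx (zlow coefA) arcS addS structA)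
    (noEnd tineqA (chiLe (absChi lemA) instA) chiPA euler (surj factA) freeEx
      (endA coefA coreA) (endB coefA (coreB h1A h2A)) (endM factA psizeA) addS structA)
    volS

end Pool.Agent.MP_df844f_gt.RA.XAll

end
end MrgPart11

-- marker of a merged file
example : 731051 + 579903 = 731051 + 579903 := rfl
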